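import Mathlib
import Pool.Agent.Helper43K9.NH.Base
import Pool.Agent.Helper43K9.NH.Dvr
import Pool.Agent.TH165.ACC.NFin

/-!
# Nondegenerate hypersurfaces in affine toric varieties, with nondegenerate boundaries: definitions

The germs `HypGerm` are defined in `Pool.Agent.Helper43K9.NH.Defs`.
-/

set_option autoImplicit false

namespace Pool.Agent.K9h50.NH

open Pool.Agent.H436R3.Fol Pool.Agent.H436R3.KT Pool.Agent.W497.Mld MvPolynomial
open Pool.Agent.TH165.ACC (pr ex Prim Cn Hs lead part mldsR)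
open Pool.Agent.Helper43K9.NH

variable {d : ℕ} {L : Type} [Field L] [Algebra ℂ L]

/-- The polynomials `F` (for `none`) and `G_j` (for `some j`). -/
def sys {d s : ℕ} (F : MvPolynomial (Fin (d + 1)) ℂ) (G : Fin s → MvPolynomial (Fin (d + 1)) ℂ) :
    Option (Fin s) → MvPolynomial (Fin (d + 1)) ℂ
  | none => F
  | some j => G j

/-- A boundary `B_Y = ∑ β_i D_i + ∑ c_j div (G_j)'` on the toric variety `Y`: the `D_i` are the
invariant prime divisors, and `div (G_j)'` is the closure of the zero divisor in the torus of the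
polynomial `G_j`, which does not vanish identically on `X`. The system `F, G_1, ..., G_s` is
nondegenerate: for all weights `w` in the interior of the cone, at every point `ξ` of the torus with
`in_w F (ξ) = 0` the logarithmic gradients of those of the initial forms of `F, G_1, ..., G_s` which
vanish at `ξ` are linearly independent. The divisor `K_Y + X + B_Y` is `ℝ`-Cartier at `P`, with the
local equation `y ^ (-ψ) ∏ G_j ^ (c_j)` (with respect to the form
`dy_0 / y_0 ∧ ... ∧ dy_d / y_d / F`). -/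
structure Bdy (g : HypGerm d L) where
  β : Fin g.N → ℝ
  β0 : ∀ i, 0 ≤ β i
  s : ℕ
  c : Fin s → ℝ
  c0 : ∀ j, 0 ≤ c j
  c1 : ∀ j, c j ≤ 1
  G : Fin s → MvPolynomial (Fin (d + 1)) ℂ
  Gne : ∀ j, aeval g.y (G j) ≠ 0
  nondeg : ∀ w, Inn g.E w → ∀ ξ : Fin (d + 1) → ℂ, (∀ i, ξ i ≠ 0) → eval ξ (lead w g.F) = 0 →
    LinearIndependent ℂ fun (j : {j : Option (Fin s) // eval ξ (lead w (sys g.F G j)) = 0})
      (i : Fin (d + 1)) => ξ i * eval ξ (pderiv i (lead w (sys g.F G j.1)))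
  ψ : Fin (d + 1) → ℝ
  eq : ∀ i, dot ψ (g.E i) = 1 - β i + (phi (expo g.F) (g.E i) : ℝ) +
    ∑ j, c j * (phi (expo (G j)) (g.E i) : ℝ)

variable {g : HypGerm d L}

/-- `K_X + B` is the restriction to `X` of `K_Y + X + B_Y`. -/
def IsRes (b : Bdy g) {B : EffDiv g.X} (e : LocEq B g.P) : Prop :=
  ∀ v : DVal L, ∑ k, e.ρ k * (v.ord (e.g k) : ℝ) =
    -dot b.ψ (wt g.y v) + ∑ j, b.c j * (v.ord (aeval g.y (b.G j)) : ℝ)

/-- `X` is of klt type: for some boundary `B_Y` as in `Bdy` the restriction `(X, B)`,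
`K_X + B = (K_Y + X + B_Y)|_X`, is klt at `P`: the log discrepancies of the prime divisors over `X`
with centre `P` are bounded from below by a positive multiple of the order of a monomial which
vanishes on the boundary of `Y`. -/
def KltTy (g : HypGerm d L) : Prop :=
  ∃ (b : Bdy g) (ε : ℝ) (Q : Fin (d + 1) → ℤ), 0 < ε ∧ (∀ i, 0 < pr Q (g.E i)) ∧
    ∀ v, IsOverGerm g.P v → ∀ c : ℤ, IsCanOrd g.X.T v c →
      ε * (pr Q (wt g.y v) : ℝ) ≤ 1 + (c : ℝ) + dot b.ψ (wt g.y v) -
        ∑ j, b.c j * (v.ord (aeval g.y (b.G j)) : ℝ)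

/-- The minimal log discrepancies `m ≥ 0` of the pairs `(X ∋ P, B)`: `X` is a normal nondegenerate
hypersurface of dimension `d` in an affine toric variety `Y`, of klt type, and
`K_X + B = (K_Y + X + B_Y)|_X` for a nondegenerate boundary `B_Y` on `Y` with coefficients in `Γ`. -/
def hypMlds (d : ℕ) (Γ : Set ℝ) : Set ℝ :=
  {m : ℝ | 0 ≤ m ∧ ∃ (L : Type) (_ : Field L) (_ : Algebra ℂ L) (g : HypGerm d L) (b : Bdy g)
    (B : EffDiv g.X) (e : LocEq B g.P), IsNormal g.X ∧ KltTy g ∧ IsRes b e ∧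
      (∀ i, b.β i ≠ 0 → b.β i ∈ Γ) ∧ (∀ j, b.c j ≠ 0 → b.c j ∈ Γ) ∧
      Pool.Agent.W497.Mld.IsMld e m}

/-- the log discrepancy of the monomial weights `w` -/
noncomputable def ld (b : Bdy g) (w : Fin (d + 1) → ℤ) : ℝ :=
  dot b.ψ w - (phi (expo g.F) w : ℝ) - ∑ j, b.c j * (phi (expo (b.G j)) w : ℝ)

end Pool.Agent.K9h50.NH
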