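import Mathlib
import Pool.Agent.K9h50.NH.Defs

/-!
# Initial forms and residues at an arbitrary valuation
-/

set_option autoImplicit false
set_option linter.unusedSectionVars false

namespace Pool.Agent.K9h50.NH

open Pool.Agent.H436R3.Fol Pool.Agent.H436R3.KT Pool.Agent.W497.Mld MvPolynomial
open Pool.Agent.TH165.ACC (pr ex Prim Cn Hs lead part mldsR mvI mem_mvI ord_eq_zero_of_notMem
  lead_eq coeff_part pr_add pr_zero pr_neg pr_sub pr_smul pr_smul_right ex_add ex_inj)
open Pool.Agent.Helper43K9.NH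

variable {n : ℕ} {L : Type} [Field L] [Algebra ℂ L]

section phi

variable {v : DVal L} {π : L} (hπ : π ≠ 0) (h1 : v.ord π = 1) {y : Fin n → L} (hy : ∀ i, y i ≠ 0)

include hπ h1 hy in
theorem reg_unit (i : Fin n) : v.Reg (y i * π ^ (-v.ord (y i))) := by
  right
  rw [v.map_mul _ _ (hy i) (zpow_ne_zero _ hπ), v.ord_zpow hπ, h1]
  omega

/-- the evaluation at the normalised coordinates -/
noncomputable def Ph : MvPolynomial (Fin n) ℂ →+* v.O :=
  eval₂Hom ((algebraMap ℂ L).codRestrict v.O fun c => v.reg_const c)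
    fun i => ⟨y i * π ^ (-v.ord (y i)), reg_unit hπ h1 hy i⟩

theorem Ph_X (i : Fin n) : (Ph hπ h1 hy (X i) : L) = y i * π ^ (-v.ord (y i)) := by
  rw [Ph, coe_eval₂Hom, eval₂_X]

theorem Ph_eq (q : MvPolynomial (Fin n) ℂ) :
    (Ph hπ h1 hy q : L) = aeval (fun i => y i * π ^ (-v.ord (y i))) q := by
  have h : (v.O.subtype.comp (Ph hπ h1 hy)) =
      (aeval (fun i => y i * π ^ (-v.ord (y i))) : MvPolynomial (Fin n) ℂ →ₐ[ℂ] L).toRingHom := by
    apply ringHom_ext
    · intro c
      rw [RingHom.comp_apply, Ph, coe_eval₂Hom, eval₂_C]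
      change algebraMap ℂ L c = aeval _ (C c)
      rw [aeval_C]
    · intro i
      rw [RingHom.comp_apply]
      change (Ph hπ h1 hy (X i) : L) = aeval _ (X i)
      rw [Ph_X, aeval_X]
  exact RingHom.congr_fun h q

theorem Ph_monomial (s : Fin n →₀ ℕ) (c : ℂ) : (Ph hπ h1 hy (monomial s c) : L) =
    aeval y (monomial s c) * π ^ (-pr (ex s) (wt y v)) := by
  have key : ∀ S : Finset (Fin n), (∏ i ∈ S, (π ^ (-v.ord (y i))) ^ s i) =
      π ^ (-∑ i ∈ S, (s i : ℤ) * v.ord (y i)) := by
    intro S
    induction S using Finset.induction_on with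
    | empty => simp
    | insert a S ha ih =>
      rw [Finset.prod_insert ha, Finset.sum_insert ha, neg_add, zpow_add₀ hπ, ih]
      congr 1
      rw [← zpow_natCast, ← zpow_mul]
      congr 1
      ring
  rw [Ph, coe_eval₂Hom, eval₂_monomial, Finsupp.prod_fintype _ _ (fun i => pow_zero _),
    aeval_mon, ch]
  push_cast
  simp only [mul_pow, Finset.prod_mul_distrib, key, Pool.Agent.TH165.ACC.ex, zpow_natCast, mul_assoc]
  rfl

theorem reg_mul_zpow {q : MvPolynomial (Fin n) ℂ} {m : ℤ}
    (h : ∀ s ∈ q.support, m ≤ pr (ex s) (wt y v)) : v.Reg (aeval y q * π ^ (-m)) ∧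
      v.Pos (aeval y q * π ^ (-m) - (Ph hπ h1 hy (part (wt y v) m q) : L)) := by
  classical
  have hterm : ∀ s ∈ q.support, v.Reg (aeval y (monomial s (q.coeff s)) * π ^ (-m)) ∧
      (pr (ex s) (wt y v) ≠ m → v.Pos (aeval y (monomial s (q.coeff s)) * π ^ (-m))) := by
    intro s hs
    have hc : q.coeff s ≠ 0 := mem_support_iff.1 hs
    have hc' : algebraMap ℂ L (q.coeff s) ≠ 0 := by
      rwa [Ne, map_eq_zero_iff _ (algebraMap ℂ L).injective]
    have h2 : v.ord (aeval y (monomial s (q.coeff s)) * π ^ (-m)) =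
        pr (ex s) (wt y v) - m := by
      rw [aeval_mon, v.map_mul _ _ (mul_ne_zero hc' (ch_ne hy _)) (zpow_ne_zero _ hπ),
        v.map_mul _ _ hc' (ch_ne hy _), v.const _ hc, ord_ch hy, v.ord_zpow hπ, h1]
      ring
    have h3 := h s hs
    exact ⟨Or.inr (by rw [h2]; omega), fun h4 => Or.inr (by rw [h2]; omega)⟩
  have hsum : aeval y q * π ^ (-m) =
      ∑ s ∈ q.support, aeval y (monomial s (q.coeff s)) * π ^ (-m) := by
    conv_lhs => rw [q.as_sum, map_sum, Finset.sum_mul]
  constructor
  · rw [hsum]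
    exact v.O.sum_mem fun s hs => (hterm s hs).1
  · have h5 : (Ph hπ h1 hy (part (wt y v) m q) : L) =
        ∑ s ∈ q.support with pr (ex s) (wt y v) = m,
          aeval y (monomial s (q.coeff s)) * π ^ (-m) := by
      rw [part, map_sum]
      push_cast
      refine Finset.sum_congr rfl fun s hs => ?_
      rw [Ph_monomial, (Finset.mem_filter.1 hs).2]
    rw [hsum, h5, ← Finset.sum_filter_add_sum_filter_not q.support
      (fun s => pr (ex s) (wt y v) = m), add_sub_cancel_left]
    have h6 : ∀ S : Finset (Fin n →₀ ℕ), S ⊆ q.support → (∀ s ∈ S, pr (ex s) (wt y v) ≠ m) →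
        v.Pos (∑ s ∈ S, aeval y (monomial s (q.coeff s)) * π ^ (-m)) := by
      intro S
      induction S using Finset.induction_on with
      | empty => intro _ _; exact Or.inl (by simp)
      | insert a S ha ih =>
        intro hS hm
        rw [Finset.sum_insert ha]
        exact v.pos_add ((hterm a (hS (Finset.mem_insert_self a S))).2
          (hm a (Finset.mem_insert_self a S)))
          (ih (fun x hx => hS (Finset.mem_insert_of_mem hx))
            fun x hx => hm x (Finset.mem_insert_of_mem hx))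
    exact h6 _ (Finset.filter_subset _ _) fun s hs => (Finset.mem_filter.1 hs).2

include hy in
theorem ge_of_phi {q : MvPolynomial (Fin n) ℂ} (hq : aeval y q ≠ 0) :
    phi (expo q) (wt y v) ≤ v.ord (aeval y q) := by
  obtain ⟨π, hπ, h1⟩ := v.surj
  have hq0 : q ≠ 0 := by
    rintro rfl
    exact hq (map_zero _)
  obtain ⟨-, h2⟩ := phi_expo hq0 (wt y v)
  have h3 := (reg_mul_zpow hπ h1 hy h2).1
  have h4 := v.ord_nonneg (mul_ne_zero hq (zpow_ne_zero _ hπ)) h3
  rw [v.map_mul _ _ hq (zpow_ne_zero _ hπ), v.ord_zpow hπ, h1] at h4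
  omega

theorem lead_phi {q : MvPolynomial (Fin n) ℂ} (hq : q ≠ 0) (w : Fin n → ℤ) :
    lead w q = part w (phi (expo q) w) q :=
  lead_eq (phi_expo hq w).1 (phi_expo hq w).2

end phi

/-- the derivative of a polynomial in the coordinates -/
theorem der_aeval (D : Derivation ℂ L L) (y : Fin n → L) (q : MvPolynomial (Fin n) ℂ) :
    D (aeval y q) = ∑ i, aeval y (pderiv i q) * D (y i) := by
  induction q using MvPolynomial.induction_on with
  | C a => simp
  | add p q hp hq => simp only [map_add, hp, hq, add_mul, Finset.sum_add_distrib]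
  | mul_X p i hp =>
    simp only [map_mul, Derivation.leibniz, aeval_X, hp, smul_eq_mul, pderiv_X, map_add,
      add_mul, Finset.sum_add_distrib]
    congr 1
    · rw [Finset.sum_eq_single i]
      · simp
      · intro j _ hj
        simp [Pi.single_apply, hj.symm]
      · intro h; exact absurd (Finset.mem_univ _) h
    · rw [Finset.mul_sum]
      exact Finset.sum_congr rfl fun j _ => by ring

theorem der_aeval' (D : Derivation ℂ L L) {y : Fin n → L} (hy : ∀ i, y i ≠ 0)
    (q : MvPolynomial (Fin n) ℂ) :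
    D (aeval y q) = ∑ i, D (y i) / y i * aeval y (X i * pderiv i q) := by
  rw [der_aeval]
  refine Finset.sum_congr rfl fun i _ => ?_
  rw [map_mul, aeval_X]
  have := hy i
  field_simp

theorem der_ch (D : Derivation ℂ L L) {y : Fin n → L} (hy : ∀ i, y i ≠ 0) (m : Fin n → ℤ) :
    D (ch y m) = (∑ i, (m i : L) * (D (y i) / y i)) * ch y m := by
  classical
  have key : ∀ S : Finset (Fin n), D (∏ i ∈ S, y i ^ m i) =
      (∑ i ∈ S, (m i : L) * (D (y i) / y i)) * ∏ i ∈ S, y i ^ m i := by
    intro S
    induction S using Finset.induction_on with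
    | empty => simp
    | insert a S ha ih =>
      rw [Finset.prod_insert ha, Finset.sum_insert ha, Derivation.leibniz, ih, smul_eq_mul,
        smul_eq_mul, Derivation.leibniz_zpow, smul_eq_mul]
      have := hy a
      have h2 : y a ^ (m a - 1) = y a ^ m a / y a := by rw [zpow_sub_one₀ this, div_eq_mul_inv]
      rw [h2]
      simp only [zsmul_eq_mul]
      field_simp
      ring
  exact key Finset.univ

end Pool.Agent.K9h50.NH
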