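import Mathlib
import Pool.Agent.K9h50.NH.Lead
import Pool.Agent.W497.Mld.Jac

/-!
# The Jacobian inequality on nondegenerate hypersurfaces
-/

set_option autoImplicit false
set_option linter.unusedSectionVars false

namespace Pool.Agent.K9h50.NH

open Pool.Agent.H436R3.Fol Pool.Agent.H436R3.KT Pool.Agent.W497.Mld MvPolynomial
open Pool.Agent.TH165.ACC (pr ex Prim Cn Hs lead part mldsR mvI mem_mvI ord_eq_zero_of_notMem
  lead_eq coeff_part pr_add pr_zero pr_neg pr_sub pr_smul pr_smul_right ex_add ex_inj exists_minor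
  euler_part support_euler)
open Pool.Agent.Helper43K9.NH

variable {d : ℕ} {L : Type} [Field L] [Algebra ℂ L] {g : HypGerm d L}

theorem F_zero (g : HypGerm d L) : aeval g.y g.F = 0 := (g.ker g.F).2 dvd_rfl

/-- The determinant of the derivatives of `d` functions on the hypersurface. -/
theorem detT (g : HypGerm d L) (hk : ∃ k, aeval g.y (X k * pderiv k g.F) ≠ 0)
    (q : Fin d → MvPolynomial (Fin (d + 1)) ℂ) :
    (Matrix.of fun j i : Fin d => g.X.T.D (g.e.symm j) (aeval g.y (q i))).det =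
      (Matrix.of fun a x : Fin (d + 1) =>
        aeval g.y (X a * pderiv a ((Fin.cons g.F q : Fin (d + 1) → _) x))).det := by
  obtain ⟨k0, hk0⟩ := hk
  set C : Matrix (Fin (d + 1)) (Fin (d + 1)) L := Matrix.of fun a x : Fin (d + 1) =>
    aeval g.y (X a * pderiv a ((Fin.cons g.F q : Fin (d + 1) → _) x)) with hC
  let τ : Fin d → Fin (d + 1) → L := fun j a => g.X.T.D (g.e.symm j) (g.y a) / g.y a
  let τ' : Matrix (Fin (d + 1)) (Fin (d + 1)) L :=
    Matrix.of (Fin.cons (Pi.single k0 1) τ : Fin (d + 1) → Fin (d + 1) → L)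
  have hτ' : τ'.det = aeval g.y (X k0 * pderiv k0 g.F) := by
    rw [Matrix.det_succ_row_zero, Finset.sum_eq_single k0]
    · have h1 : τ' 0 k0 = 1 := by simp [τ']
      have h2 : τ'.submatrix Fin.succ k0.succAbove = Matrix.of fun (j i : Fin d) =>
          g.X.T.D (g.e.symm j) (g.y (k0.succAbove i)) / g.y (k0.succAbove i) := by
        ext j i
        simp [τ', τ]
      rw [h1, h2, g.res k0, mul_one, ← mul_assoc, ← pow_add, ← two_mul, pow_mul]
      simp
    · intro j _ hj
      have h1 : τ' 0 j = 0 := by simp [τ', Pi.single_apply, hj]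
      rw [h1]
      ring
    · intro h; exact absurd (Finset.mem_univ _) h
  have hmul : ∀ (j : Fin d) (x : Fin (d + 1)), (τ' * C) j.succ x =
      g.X.T.D (g.e.symm j) (aeval g.y ((Fin.cons g.F q : Fin (d + 1) → _) x)) := by
    intro j x
    rw [Matrix.mul_apply, der_aeval' _ g.yne]
    refine Finset.sum_congr rfl fun a _ => ?_
    simp [τ', τ, hC]
  have hdet : (τ' * C).det = C k0 0 *
      (Matrix.of fun j i : Fin d => g.X.T.D (g.e.symm j) (aeval g.y (q i))).det := by
    rw [Matrix.det_succ_column_zero, Finset.sum_eq_single 0]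
    · have h1 : (τ' * C) 0 0 = C k0 0 := by
        rw [Matrix.mul_apply, Finset.sum_eq_single k0]
        · simp [τ']
        · intro a _ ha
          simp [τ', Pi.single_apply, ha]
        · intro h; exact absurd (Finset.mem_univ _) h
      have h2 : (τ' * C).submatrix (Fin.succAbove 0) Fin.succ =
          Matrix.of fun j i : Fin d => g.X.T.D (g.e.symm j) (aeval g.y (q i)) := by
        ext j i
        rw [Matrix.submatrix_apply, Fin.succAbove_zero, hmul]
        simp
      rw [h1, h2]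
      simp
    · intro a _ ha
      obtain ⟨j, rfl⟩ := Fin.exists_succ_eq.2 ha
      rw [hmul]
      simp [F_zero]
    · intro h; exact absurd (Finset.mem_univ _) h
  rw [Matrix.det_mul, hτ'] at hdet
  have h3 : C k0 0 = aeval g.y (X k0 * pderiv k0 g.F) := by simp [hC]
  rw [h3] at hdet
  exact (mul_left_cancel₀ hk0 hdet).symm

theorem ord_det_submatrix (v : DVal L) {ι κ : Type} [Fintype ι] [DecidableEq ι] [Fintype κ]
    [DecidableEq κ] (M : Matrix ι ι L) (e1 e2 : κ ≃ ι) :
    v.ord (M.submatrix e1 e2).det = v.ord M.det ∧ ((M.submatrix e1 e2).det = 0 ↔ M.det = 0) := by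
  have h1 : M.submatrix e1 e2 = (M.submatrix e1 e1).submatrix id (e2.trans e1.symm) := by
    ext a b
    simp
  rw [h1, Matrix.det_permute', Matrix.det_submatrix_equiv_self]
  rcases Int.units_eq_one_or (Equiv.Perm.sign (e2.trans e1.symm)) with h | h
  · rw [h]
    simp
  · rw [h]
    by_cases h0 : M.det = 0
    · simp [h0]
    · constructor
      · have : (((-1 : ℤˣ) : ℤ) : L) * M.det = -M.det := by simp
        rw [this, v.ord_neg h0]
      · simp

section jac

variable {s : ℕ} (G : Fin s → MvPolynomial (Fin (d + 1)) ℂ) (Gne : ∀ j, aeval g.y (G j) ≠ 0)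
  (v : DVal L)

/-- the orders of the polynomials of the system, `0` for `F` -/
noncomputable def oo (y : Fin (d + 1) → L) (G : Fin s → MvPolynomial (Fin (d + 1)) ℂ)
    (v : DVal L) : Option (Fin s) → ℤ
  | none => 0
  | some j => v.ord (aeval y (G j))

include Gne in
/-- **The Jacobian inequality.** -/
theorem jac
    (hnd : ∀ ξ : Fin (d + 1) → ℂ, (∀ i, ξ i ≠ 0) → eval ξ (lead (wt g.y v) g.F) = 0 →
      LinearIndependent ℂ fun (j : {j : Option (Fin s) //
          eval ξ (lead (wt g.y v) (sys g.F G j)) = 0})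
        (i : Fin (d + 1)) => ξ i * eval ξ (pderiv i (lead (wt g.y v) (sys g.F G j.1))))
    (A : Matrix (Fin g.X.d) (Fin g.X.d) L) (hA0 : A.det ≠ 0)
    (hA : ∀ i, Preserves v (∑ j, A i j • g.X.T.D j)) :
    ∑ j, (v.ord (aeval g.y (G j)) - phi (expo (G j)) (wt g.y v)) ≤
      v.ord A.det + 1 + phi (expo g.F) (wt g.y v) := by
  classical
  set u : Fin (d + 1) → ℤ := wt g.y v with hu
  set p : Option (Fin s) → MvPolynomial (Fin (d + 1)) ℂ := sys g.F G with hp
  have hGne0 : ∀ j, G j ≠ 0 := by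
    intro j h
    apply Gne j
    rw [h, map_zero]
  have hp0 : ∀ x, p x ≠ 0 := by
    intro x
    cases x with
    | none => exact g.Fne
    | some j => exact hGne0 j
  set m : Option (Fin s) → ℤ := fun x => phi (expo (p x)) u with hm
  have hmin : ∀ x, (∃ t ∈ (p x).support, m x = pr (ex t) u) ∧
      ∀ t ∈ (p x).support, m x ≤ pr (ex t) u := fun x => phi_expo (hp0 x) u
  obtain ⟨π, hπ, h1⟩ := v.surj
  let Jp : Option (Fin s) → Prop := fun x => x = none ∨ m x ≠ oo g.y G v x
  let J : Type := {x : Option (Fin s) // Jp x}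
  let 𝔭 : Ideal (MvPolynomial (Fin (d + 1)) ℂ) := (mvI v).comap (Ph hπ h1 g.yne)
  have hlead : ∀ x, lead u (p x) = part u (m x) (p x) := fun x => lead_eq (hmin x).1 (hmin x).2
  have hJ : ∀ x : J, lead u (p x.1) ∈ 𝔭 := by
    intro x
    rw [hlead]
    change v.Pos _
    obtain ⟨h2, h3⟩ := reg_mul_zpow hπ h1 g.yne (hmin x.1).2
    have h4 : v.Pos (aeval g.y (p x.1) * π ^ (-m x.1)) := by
      obtain ⟨x, hx⟩ := x
      cases x with
      | none =>
        left
        change aeval g.y g.F * _ = 0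
        rw [F_zero, zero_mul]
      | some j =>
        right
        change 0 < v.ord (aeval g.y (G j) * π ^ (-m (some j)))
        rw [v.map_mul _ _ (Gne j) (zpow_ne_zero _ hπ), v.ord_zpow hπ, h1]
        have h5 : m (some j) ≤ v.ord (aeval g.y (G j)) := ge_of_phi g.yne (Gne j)
        have h6 : m (some j) ≠ v.ord (aeval g.y (G j)) := hx.resolve_left (by simp)
        omega
    have h5 : (Ph hπ h1 g.yne (part u (m x.1) (p x.1)) : L) = aeval g.y (p x.1) * π ^ (-m x.1) +
        (-1) * (aeval g.y (p x.1) * π ^ (-m x.1) -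
          (Ph hπ h1 g.yne (part u (m x.1) (p x.1)) : L)) := by ring
    rw [h5]
    refine v.pos_add h4 (v.pos_mul_left ?_ h3)
    exact v.reg_neg v.reg_one
  have h𝔭 : 𝔭.IsPrime := Ideal.IsPrime.comap _
  have hX : ∀ i, (X i : MvPolynomial (Fin (d + 1)) ℂ) ∉ 𝔭 := by
    intro i hi
    have h3 : v.Pos (g.y i * π ^ (-v.ord (g.y i))) := by
      rw [← Ph_X hπ h1 g.yne]
      exact hi
    rcases h3 with h3 | h3
    · exact mul_ne_zero (g.yne i) (zpow_ne_zero _ hπ) h3
    · rw [v.map_mul _ _ (g.yne i) (zpow_ne_zero _ hπ), v.ord_zpow hπ, h1] at h3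
      omega
  obtain ⟨ξ, hξ𝔭, hξ⟩ : ∃ ξ ∈ zeroLocus ℂ 𝔭, ∀ i, ξ i ≠ 0 := by
    by_contra h2
    push Not at h2
    have h3 : (∏ i, (X i : MvPolynomial (Fin (d + 1)) ℂ)) ∈ vanishingIdeal ℂ (zeroLocus ℂ 𝔭) := by
      rw [mem_vanishingIdeal_iff]
      intro ξ hξ
      obtain ⟨i, hi⟩ := h2 ξ hξ
      rw [map_prod]
      exact Finset.prod_eq_zero (Finset.mem_univ i) (by rw [aeval_X, hi])
    rw [vanishingIdeal_zeroLocus_eq_radical, h𝔭.radical, h𝔭.prod_mem_iff] at h3
    obtain ⟨i, -, hi⟩ := h3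
    exact hX i hi
  have hev : ∀ q ∈ 𝔭, eval ξ q = 0 := by
    intro q hq
    have := mem_zeroLocus_iff.1 hξ𝔭 q hq
    rwa [← coe_aeval_eq_eval]
  have hli := (hnd ξ hξ (hev _ (hJ ⟨none, Or.inl rfl⟩))).comp
    (fun x : J => (⟨x.1, hev _ (hJ x)⟩ : {j // eval ξ (lead u (p j)) = 0}))
    (fun a b hab => Subtype.ext (congrArg (fun x => x.1) hab))
  obtain ⟨σ, hσ, hdet⟩ := exists_minor (Matrix.of fun (x : J) (i : Fin (d + 1)) =>
    ξ i * eval ξ (pderiv i (lead u (p x.1)))) hli
  let Mp : Matrix J J (MvPolynomial (Fin (d + 1)) ℂ) :=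
    Matrix.of fun a b => X (σ a) * pderiv (σ a) (lead u (p b.1))
  have hMp : Mp.det ∉ 𝔭 := by
    intro h2
    apply hdet
    rw [← hev _ h2, RingHom.map_det]
    congr 1
    ext a b
    simp [Mp]
  let AO : Matrix J J v.O := Matrix.of fun a b =>
    ⟨aeval g.y (X (σ a) * pderiv (σ a) (p b.1)) * π ^ (-m b.1),
      (reg_mul_zpow hπ h1 g.yne fun t ht => (hmin b.1).2 t (support_euler _ _ ht)).1⟩
  have hAO : AO.det ∉ mvI v := by
    intro h2
    apply hMp
    have h3 : (Ideal.Quotient.mk (mvI v)).mapMatrix AO =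
        (Ideal.Quotient.mk (mvI v)).mapMatrix ((Ph hπ h1 g.yne).mapMatrix Mp) := by
      ext a b
      rw [RingHom.mapMatrix_apply, RingHom.mapMatrix_apply, RingHom.mapMatrix_apply,
        Matrix.map_apply, Matrix.map_apply, Matrix.map_apply, Ideal.Quotient.eq, mem_mvI]
      have h4 := (reg_mul_zpow hπ h1 g.yne
        fun t ht => (hmin b.1).2 t (support_euler (σ a) _ ht)).2
      rw [← hu, ← euler_part, ← hlead] at h4
      exact h4
    have h4 : Ideal.Quotient.mk (mvI v) AO.det =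
        Ideal.Quotient.mk (mvI v) (Ph hπ h1 g.yne Mp.det) := by
      rw [RingHom.map_det, h3, RingHom.map_det, RingHom.map_det]
    rw [Ideal.Quotient.eq_zero_iff_mem.2 h2] at h4
    change Ph hπ h1 g.yne Mp.det ∈ mvI v
    exact Ideal.Quotient.eq_zero_iff_mem.1 h4.symm
  obtain ⟨hd0, hd⟩ := ord_eq_zero_of_notMem hAO
  have hdK : (AO.det : L) = (Matrix.of fun a b : J =>
      aeval g.y (X (σ a) * pderiv (σ a) (p b.1)) * π ^ (-m b.1)).det := by
    have := v.O.subtype.map_det AO
    change (AO.det : L) = _ at this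
    rw [this]
    rfl
  rw [hdK] at hd0 hd
  let Cc : Type := ↑((Set.range σ)ᶜ)
  let ε : J ⊕ Cc ≃ Fin (d + 1) :=
    (Equiv.sumCongr (Equiv.ofInjective σ hσ) (Equiv.refl _)).trans
      (Equiv.Set.sumCompl (Set.range σ))
  let x0 : J := ⟨none, Or.inl rfl⟩
  let ε' : Fin (d + 1) ≃ J ⊕ Cc := (Equiv.swap 0 (ε (Sum.inl x0))).trans ε.symm
  have hε'0 : ε' 0 = Sum.inl x0 := by simp [ε']
  let H : J ⊕ Cc → MvPolynomial (Fin (d + 1)) ℂ := Sum.elim (fun x => p x.1) fun i => X i.1
  let q : Fin d → MvPolynomial (Fin (d + 1)) ℂ := fun i => H (ε' i.succ)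
  have hcons : (Fin.cons g.F q : Fin (d + 1) → MvPolynomial (Fin (d + 1)) ℂ) = fun x => H (ε' x) := by
    funext x
    refine Fin.cases ?_ (fun i => ?_) x
    · rw [Fin.cons_zero, hε'0]
      rfl
    · rw [Fin.cons_succ]
  have hε'ne : ∀ i : Fin d, ε' i.succ ≠ Sum.inl x0 := by
    intro i h
    rw [← hε'0] at h
    exact Fin.succ_ne_zero i (ε'.injective h)
  have hqne : ∀ i, aeval g.y (q i) ≠ 0 := by
    intro i
    have h2 := hε'ne i
    change aeval g.y (H (ε' i.succ)) ≠ 0
    generalize ε' i.succ = z at h2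
    rcases z with ⟨x, hx⟩ | z
    · cases x with
      | none => exact absurd rfl h2
      | some j => exact Gne j
    · change aeval g.y (X z.1) ≠ 0
      rw [aeval_X]
      exact g.yne _
  let A1 : Matrix J J L := Matrix.of fun a b => aeval g.y (X (σ a) * pderiv (σ a) (p b.1))
  let C1 : Matrix Cc J L := Matrix.of fun a b => aeval g.y (X a.1 * pderiv a.1 (p b.1))
  let M : Matrix (J ⊕ Cc) (J ⊕ Cc) L := Matrix.of fun a b =>
    aeval g.y (X (ε a) * pderiv (ε a) (H b))
  have hXd : ∀ i k : Fin (d + 1),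
      aeval g.y (X i * pderiv i (X k) : MvPolynomial (Fin (d + 1)) ℂ) =
      if i = k then g.y k else 0 := by
    intro i k
    by_cases h : i = k
    · subst h; simp
    · rw [if_neg h, pderiv_X, Pi.single_apply, if_neg (Ne.symm h), mul_zero, map_zero]
  have hblock : M = Matrix.fromBlocks A1 0 C1 (Matrix.diagonal fun i : Cc => g.y i.1) := by
    ext x z
    rcases x with x | x <;> rcases z with z | z
    · rfl
    · change aeval g.y (X (σ x) * pderiv (σ x) (X z.1)) = 0
      rw [hXd, if_neg]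
      intro h2
      exact z.2 ⟨x, h2⟩
    · rfl
    · change aeval g.y (X x.1 * pderiv x.1 (X z.1)) = Matrix.diagonal (fun i : Cc => g.y i.1) x z
      rw [hXd, Matrix.diagonal_apply]
      by_cases h2 : x = z
      · subst h2; simp
      · rw [if_neg (fun h3 => h2 (Subtype.ext h3)), if_neg h2]
  have hA1 : A1.det = (∏ b : J, π ^ m b.1) * (Matrix.of fun a b : J =>
      aeval g.y (X (σ a) * pderiv (σ a) (p b.1)) * π ^ (-m b.1)).det := by
    rw [← Matrix.det_mul_row]
    congr 1
    ext a b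
    simp only [Matrix.of_apply, A1]
    generalize aeval g.y (X (σ a) * pderiv (σ a) (p b.1)) = z
    rw [mul_comm, mul_assoc, ← zpow_add₀ hπ, neg_add_cancel, zpow_zero, mul_one]
  have hpi : (∏ b : J, π ^ m b.1) ≠ 0 := Finset.prod_ne_zero_iff.2 fun b _ => zpow_ne_zero _ hπ
  have hcv : (∏ i : Cc, g.y i.1) ≠ 0 := Finset.prod_ne_zero_iff.2 fun b _ => g.yne _
  have hA1ne : A1.det ≠ 0 := by rw [hA1]; exact mul_ne_zero hpi hd0
  have hA1ord : v.ord A1.det = ∑ b : J, m b.1 := by
    rw [hA1, v.map_mul _ _ hpi hd0, hd, add_zero, v.ord_prod _ _ fun b _ => zpow_ne_zero _ hπ]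
    exact Finset.sum_congr rfl fun b _ => by rw [v.ord_zpow hπ, h1, mul_one]
  have hMdet : M.det = A1.det * ∏ i : Cc, g.y i.1 := by
    rw [hblock, Matrix.det_fromBlocks_zero₁₂, Matrix.det_diagonal]
  have hMne : M.det ≠ 0 := by rw [hMdet]; exact mul_ne_zero hA1ne hcv
  have hC : (Matrix.of fun a x : Fin (d + 1) =>
      aeval g.y (X a * pderiv a ((Fin.cons g.F q : Fin (d + 1) → _) x))) =
      M.submatrix ε.symm ε' := by
    ext a x
    rw [hcons]
    simp [M]
  obtain ⟨hCo, hC0⟩ := ord_det_submatrix v M ε.symm ε'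
  have hk : ∃ k, aeval g.y (X k * pderiv k g.F) ≠ 0 := by
    by_contra h2
    push Not at h2
    apply hMne
    rw [← hC0, ← hC]
    apply Matrix.det_eq_zero_of_column_eq_zero (0 : Fin (d + 1))
    intro a
    change aeval g.y (X a * pderiv a ((Fin.cons g.F q : Fin (d + 1) → _) 0)) = 0
    rw [Fin.cons_zero]
    exact h2 a
  have hT := detT g hk q
  rw [hC] at hT
  have hT2 : (Matrix.of fun j k : Fin g.X.d => g.X.T.D j (aeval g.y (q (g.e k)))).det =
      (M.submatrix ε.symm ε').det := by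
    rw [← hT, ← Matrix.det_submatrix_equiv_self g.e (Matrix.of fun j i : Fin d =>
      g.X.T.D (g.e.symm j) (aeval g.y (q i)))]
    congr 1
    ext j k
    simp
  have key := gji v g.X.T.D A hA0 hA (fun k => aeval g.y (q (g.e k))) (fun k => hqne _)
    (by rw [hT2, Ne, hC0]; exact hMne)
  rw [hT2, hCo, hMdet, v.map_mul _ _ hA1ne hcv, hA1ord, v.ord_prod _ _ fun i _ => g.yne _] at key
  let o : J ⊕ Cc → ℤ := Sum.elim (fun x => oo g.y G v x.1) fun i => v.ord (g.y i.1)
  have ho : ∀ i : Fin d, v.ord (aeval g.y (q i)) = o (ε' i.succ) := by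
    intro i
    have h2 := hε'ne i
    change v.ord (aeval g.y (H (ε' i.succ))) = _
    generalize ε' i.succ = z at h2
    rcases z with ⟨x, hx⟩ | z
    · cases x with
      | none => exact absurd rfl h2
      | some j => rfl
    · change v.ord (aeval g.y (X z.1)) = v.ord (g.y z.1)
      rw [aeval_X]
  have hsum : ∑ k, v.ord (aeval g.y (q (g.e k))) = ∑ x : J, oo g.y G v x.1 +
      ∑ i : Cc, v.ord (g.y i.1) := by
    rw [g.e.sum_comp fun i => v.ord (aeval g.y (q i))]
    have h2 : ∑ x, o (ε' x) = ∑ z, o z := ε'.sum_comp o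
    rw [Fin.sum_univ_succ, Fintype.sum_sum_type, hε'0] at h2
    have h3 : o (Sum.inl x0) = 0 := rfl
    rw [h3, zero_add] at h2
    rw [Finset.sum_congr rfl fun i _ => ho i, h2]
    rfl
  rw [hsum] at key
  have h10 : ∑ x : J, (oo g.y G v x.1 - m x.1) = -phi (expo g.F) u +
      ∑ j, (v.ord (aeval g.y (G j)) - phi (expo (G j)) u) := by
    have h11 : ∑ x : J, (oo g.y G v x.1 - m x.1) =
        ∑ x : Option (Fin s), (oo g.y G v x - m x) := by
      symm
      refine Eq.trans (b := ∑ x ∈ Finset.univ.filter Jp, (oo g.y G v x - m x)) ?_ ?_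
      · symm
        refine Finset.sum_filter_of_ne fun x _ h3 => ?_
        right
        intro h4
        exact h3 (by rw [h4, sub_self])
      · exact Finset.sum_subtype _ (by simp) _
    rw [h11, Fintype.sum_option]
    congr 1
    change 0 - phi (expo g.F) u = _
    ring
  rw [Finset.sum_sub_distrib] at h10
  linarith

end jac

end Pool.Agent.K9h50.NH
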