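import Mathlib
import Pool.Agent.K9h50.NH.Lead
import Pool.Agent.TH165.ACC.Exis

/-!
# The prime divisors of a hypersurface with given monomial weights
-/

set_option autoImplicit false
set_option linter.unusedSectionVars false

namespace Pool.Agent.K9h50.NH

open Pool.Agent.H436R3.Fol Pool.Agent.H436R3.KT Pool.Agent.W497.Mld MvPolynomial
open Pool.Agent.TH165.ACC (pr ex Prim Cn Hs lead part mldsR mvI mem_mvI ord_eq_zero_of_notMem
  lead_eq coeff_part pr_add pr_zero pr_neg pr_sub pr_smul pr_smul_right ex_add ex_inj exists_minor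
  euler_part support_euler LL w0 tt tt_ne w0_tt kc kc_alg exists_mon IsMonomial tv exists_nat_ex
  )
open Pool.Agent.Helper43K9.NH

variable {n : ℕ}

section weights

/-- all weights are at least `k` -/
def Ge (w : Fin n → ℤ) (k : ℤ) (P : MvPolynomial (Fin n) ℂ) : Prop :=
  ∀ s ∈ P.support, k ≤ pr (ex s) w

variable {w : Fin n → ℤ} {k l : ℤ} {P Q : MvPolynomial (Fin n) ℂ}

theorem Ge.zero : Ge w k 0 := fun s hs => by simp at hs

theorem Ge.mono (h : Ge w k P) (hl : l ≤ k) : Ge w l P := fun s hs => hl.trans (h s hs)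

theorem Ge.add (hP : Ge w k P) (hQ : Ge w k Q) : Ge w k (P + Q) := by
  classical
  intro s hs
  rcases Finset.mem_union.1 (support_add hs) with h | h
  · exact hP s h
  · exact hQ s h

theorem Ge.neg (hP : Ge w k P) : Ge w k (-P) := fun s hs => hP s (by rwa [support_neg] at hs)

theorem Ge.sub (hP : Ge w k P) (hQ : Ge w k Q) : Ge w k (P - Q) := by
  rw [sub_eq_add_neg]
  exact hP.add hQ.neg

theorem Ge.mul (hP : Ge w k P) (hQ : Ge w l Q) : Ge w (k + l) (P * Q) := by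
  classical
  intro s hs
  obtain ⟨a, ha, b, hb, rfl⟩ := Finset.mem_add.1 (support_mul P Q hs)
  rw [ex_add, pr_add]
  exact add_le_add (hP a ha) (hQ b hb)

theorem Ge.monomial (s : Fin n →₀ ℕ) (c : ℂ) : Ge w (pr (ex s) w) (MvPolynomial.monomial s c) := by
  intro t ht
  have := support_monomial_subset ht
  rw [Finset.mem_singleton] at this
  rw [this]

theorem Ge.sub_part (hP : Ge w k P) : Ge w (k + 1) (P - part w k P) := by
  intro s hs
  rw [mem_support_iff, coeff_sub, coeff_part] at hs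
  by_cases h : pr (ex s) w = k
  · rw [if_pos h, sub_self] at hs
    exact absurd rfl hs
  · rw [if_neg h, sub_zero] at hs
    have := hP s (mem_support_iff.2 hs)
    omega

theorem Ge.phi (hP : P ≠ 0) : Ge w (phi (expo P) w) P := (phi_expo hP w).2

/-- the least weight is additive -/
theorem phi_mul (hw : Prim w) (hP : P ≠ 0) (hQ : Q ≠ 0) :
    phi (expo (P * Q)) w = phi (expo P) w + phi (expo Q) w := by
  obtain ⟨v, hv, htv⟩ := exists_mon (K := FractionRing (MvPolynomial (Fin n) ℂ)) hw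
  have key : ∀ R : MvPolynomial (Fin n) ℂ, R ≠ 0 →
      phi (expo R) w = v.ord (jo (Fin n) (FractionRing (MvPolynomial (Fin n) ℂ)) R) := by
    intro R hR
    obtain ⟨⟨s, hs, h1⟩, h2⟩ := hv R hR
    rw [htv] at h1 h2
    apply phi_eq
    · exact ⟨ex s, mem_expo.2 ⟨s, hs, rfl⟩, h1.symm⟩
    · intro m hm
      obtain ⟨t, ht, rfl⟩ := mem_expo.1 hm
      exact h2 t ht
  rw [key _ (mul_ne_zero hP hQ), key _ hP, key _ hQ, map_mul, v.map_mul _ _ (jo_ne hP) (jo_ne hQ)]

theorem prim_neg (hw : Prim w) : Prim (-w) := by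
  obtain ⟨m, hm⟩ := hw
  refine ⟨-m, ?_⟩
  rw [← hm]
  simp [pr]

theorem pr_neg_right (m u : Fin n → ℤ) : pr m (-u) = -pr m u := by
  simp [pr]

/-- factors of homogeneous polynomials are homogeneous -/
theorem hom_factor (hw : Prim w) (h0 : P * Q ≠ 0) (h : ∀ s ∈ (P * Q).support, pr (ex s) w = k) :
    part w (Helper43K9.NH.phi (expo Q) w) Q = Q := by
  have hP := left_ne_zero_of_mul h0
  have hQ := right_ne_zero_of_mul h0
  have h1 := phi_mul hw hP hQ
  have h2 := phi_mul (prim_neg hw) hP hQ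
  obtain ⟨⟨s0, hs0, h3⟩, -⟩ := phi_expo h0 w
  obtain ⟨⟨s1, hs1, h4⟩, -⟩ := phi_expo h0 (-w)
  rw [h s0 hs0] at h3
  rw [pr_neg_right, h s1 hs1] at h4
  have key : ∀ R : MvPolynomial (Fin n) ℂ, R ≠ 0 →
      Helper43K9.NH.phi (expo R) w + Helper43K9.NH.phi (expo R) (-w) ≤ 0 := by
    intro R hR
    obtain ⟨⟨s, hs, h5⟩, -⟩ := phi_expo hR w
    have h6 := (phi_expo hR (-w)).2 s hs
    rw [pr_neg_right] at h6
    omega
  have h5 := key P hP
  have h6 := key Q hQ
  have h7 : Helper43K9.NH.phi (expo Q) (-w) = -Helper43K9.NH.phi (expo Q) w := by omega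
  ext s
  rw [coeff_part]
  by_cases hs : s ∈ Q.support
  · have h8 := (phi_expo hQ w).2 s hs
    have h9 := (phi_expo hQ (-w)).2 s hs
    rw [pr_neg_right] at h9
    rw [if_pos (by omega)]
  · rw [notMem_support_iff.1 hs]
    simp

theorem lead_support (hP : P ≠ 0) : ∀ s ∈ (lead w P).support,
    s ∈ P.support ∧ pr (ex s) w = Helper43K9.NH.phi (expo P) w := by
  intro s hs
  rw [lead_phi hP, mem_support_iff, coeff_part] at hs
  by_cases h : pr (ex s) w = Helper43K9.NH.phi (expo P) w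
  · rw [if_pos h] at hs
    exact ⟨mem_support_iff.2 hs, h⟩
  · rw [if_neg h] at hs
    exact absurd rfl hs

theorem lead_ne (hP : P ≠ 0) : lead w P ≠ 0 := by
  obtain ⟨⟨s, hs, h⟩, -⟩ := phi_expo hP w
  intro h0
  have h1 : (lead w P).coeff s = P.coeff s := by
    rw [lead_phi hP, coeff_part, if_pos h.symm]
  rw [h0, coeff_zero] at h1
  exact (mem_support_iff.1 hs) h1.symm

theorem phi_part (h : part w k P ≠ 0) : Helper43K9.NH.phi (expo (part w k P)) w = k := by
  obtain ⟨⟨s, hs, h1⟩, -⟩ := phi_expo h w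
  rw [h1]
  rw [mem_support_iff, coeff_part] at hs
  by_contra h2
  rw [if_neg h2] at hs
  exact hs rfl

end weights

variable {L : Type} [Field L] [Algebra ℂ L]

section val

variable {κ : Type} [Field κ] [Algebra ℂ κ] {η : Fin n → κ} {w : Fin n → ℤ}

/-- the coordinates `η_i t ^ w_i` -/
noncomputable def yk (η : Fin n → κ) (w : Fin n → ℤ) (i : Fin n) : LL κ := kc (η i) * tt κ ^ w i

theorem kc_ne {c : κ} (hc : c ≠ 0) : kc c ≠ 0 := (map_ne_zero _).2 hc

theorem ord_kc {c : κ} (hc : c ≠ 0) : (w0 κ).ord (kc c) = 0 := by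
  rw [kc, RingHom.comp_apply, w0, valP_ord Polynomial.prime_X (Polynomial.C_ne_zero.2 hc),
    multiplicity_eq_zero.2]
  · rfl
  · rw [Polynomial.X_dvd_iff, Polynomial.coeff_C_zero]
    exact hc

theorem pos_kc {c : κ} (h : (w0 κ).Pos (kc c)) : c = 0 := by
  by_contra hc
  rcases h with h | h
  · exact kc_ne hc h
  · rw [ord_kc hc] at h
    exact lt_irrefl _ h

theorem yk_ne (hη : ∀ i, η i ≠ 0) (i : Fin n) : yk η w i ≠ 0 :=
  mul_ne_zero (kc_ne (hη i)) (zpow_ne_zero _ tt_ne)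

theorem wt_yk (hη : ∀ i, η i ≠ 0) : wt (yk η w) (w0 κ) = w := by
  funext i
  rw [wt, yk, (w0 κ).map_mul _ _ (kc_ne (hη i)) (zpow_ne_zero _ tt_ne), ord_kc (hη i),
    (w0 κ).ord_zpow tt_ne, w0_tt]
  ring

theorem kc_aeval (P : MvPolynomial (Fin n) ℂ) :
    (kc (aeval η P) : LL κ) = aeval (fun i => (kc (η i) : LL κ)) P := by
  have h : (kc : κ →+* LL κ).comp (aeval η : MvPolynomial (Fin n) ℂ →ₐ[ℂ] κ).toRingHom =
      (aeval (fun i => (kc (η i) : LL κ)) : MvPolynomial (Fin n) ℂ →ₐ[ℂ] LL κ).toRingHom := by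
    apply ringHom_ext
    · intro c
      change kc (aeval η (C c)) = aeval _ (C c)
      rw [aeval_C, aeval_C, kc_alg]
    · intro i
      change kc (aeval η (X i)) = aeval _ (X i)
      rw [aeval_X, aeval_X]
  exact RingHom.congr_fun h P

theorem res (hη : ∀ i, η i ≠ 0) {P : MvPolynomial (Fin n) ℂ} {k : ℤ} (h : Ge w k P) :
    (w0 κ).Reg (aeval (yk η w) P * tt κ ^ (-k)) ∧
      (w0 κ).Pos (aeval (yk η w) P * tt κ ^ (-k) - kc (aeval η (part w k P))) := by
  have h1 := reg_mul_zpow (v := w0 κ) (y := yk η w) tt_ne w0_tt (yk_ne hη) (m := k) (q := P)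
    (by rw [wt_yk hη]; exact h)
  rw [Ph_eq, wt_yk hη] at h1
  have h2 : (fun i => yk η w i * tt κ ^ (-(w0 κ).ord (yk η w i))) =
      fun i => (kc (η i) : LL κ) := by
    funext i
    have h3 : (w0 κ).ord (yk η w i) = w i := congrFun (wt_yk (w := w) hη) i
    rw [h3, yk, mul_assoc, ← zpow_add₀ tt_ne, add_neg_cancel, zpow_zero, mul_one]
  rw [h2, ← kc_aeval] at h1
  exact h1

/-- the normalised value -/
noncomputable def vl (η : Fin n → κ) (w : Fin n → ℤ) (P : MvPolynomial (Fin n) ℂ)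
    (t : Fin n →₀ ℕ) : LL κ := aeval (yk η w) P * tt κ ^ (-pr (ex t) w)

theorem vl_mul (P P' : MvPolynomial (Fin n) ℂ) (t t' : Fin n →₀ ℕ) :
    vl η w (P * P') (t + t') = vl η w P t * vl η w P' t' := by
  rw [vl, vl, vl, map_mul, ex_add, pr_add, neg_add, zpow_add₀ tt_ne]
  ring

theorem vl_mon (hη : ∀ i, η i ≠ 0) (t : Fin n →₀ ℕ) :
    vl η w (monomial t 1) t = kc (ch η (ex t)) := by
  rw [vl, ← ch_ex, ch_ex (y := η), kc_aeval, ← ch_ex]
  have h : ∀ i, yk η w i = kc (η i) * tt κ ^ w i := fun i => rfl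
  rw [ch, ch]
  have h2 : (∏ i, yk η w i ^ ex t i) = (∏ i, (kc (η i) : LL κ) ^ ex t i) *
      tt κ ^ pr (ex t) w := by
    simp only [h, mul_zpow, Finset.prod_mul_distrib]
    congr 1
    have key : ∀ S : Finset (Fin n), (∏ i ∈ S, (tt κ ^ w i) ^ ex t i) =
        tt κ ^ (∑ i ∈ S, ex t i * w i) := by
      intro S
      induction S using Finset.induction_on with
      | empty => simp
      | insert a S ha ih =>
        rw [Finset.prod_insert ha, Finset.sum_insert ha, zpow_add₀ tt_ne, ih]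
        congr 1
        rw [mul_comm, zpow_mul]
    exact key Finset.univ
  rw [h2, mul_assoc, ← zpow_add₀ tt_ne, add_neg_cancel, zpow_zero, mul_one]

theorem unit_mon (hη : ∀ i, η i ≠ 0) (t : Fin n →₀ ℕ) :
    vl η w (monomial t 1) t ≠ 0 ∧ (w0 κ).ord (vl η w (monomial t 1) t) = 0 := by
  have h : ch η (ex t) ≠ 0 := ch_ne hη _
  rw [vl_mon hη]
  exact ⟨kc_ne h, ord_kc h⟩

theorem pos_of_mul_unit {v : DVal L} {a u : L} (hu : u ≠ 0) (hu0 : v.ord u = 0)
    (h : v.Pos (a * u)) : v.Pos a := by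
  rcases h with h | h
  · exact Or.inl ((mul_eq_zero.1 h).resolve_right hu)
  · by_cases ha : a = 0
    · exact Or.inl ha
    · right
      rw [v.map_mul _ _ ha hu, hu0] at h
      omega

theorem pos_mul_unit {v : DVal L} {a u : L} (hu : u ≠ 0) (hu0 : v.ord u = 0)
    (h : v.Pos a) : v.Pos (a * u) := by
  rw [mul_comm]
  exact v.pos_mul_left (Or.inr hu0.ge) h

theorem pos_neg' {v : DVal L} {a : L} (h : v.Pos a) : v.Pos (-a) := by
  have := v.pos_mul_left (v.reg_neg v.reg_one) h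
  rwa [neg_one_mul] at this

theorem pos_or' {v : DVal L} {a b : L} (ha : v.Reg a) (hb : v.Reg b) (h : v.Pos (a * b)) :
    v.Pos a ∨ v.Pos b := by
  have h1 : (⟨a, ha⟩ * ⟨b, hb⟩ : v.O) ∈ mvI v := h
  exact (Pool.Agent.TH165.ACC.mvI_prime v).mem_or_mem h1

variable {y : Fin n → L} {F p q : MvPolynomial (Fin n) ℂ}

/-- `f = P (y) / y ^ t`, with weights at least the weight of `y ^ t` -/
def Rep (y : Fin n → L) (w : Fin n → ℤ) (f : L) (P : MvPolynomial (Fin n) ℂ)
    (t : Fin n →₀ ℕ) : Prop :=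
  Ge w (pr (ex t) w) P ∧ f * ch y (ex t) = aeval y P

theorem Rep.mul {f f' : L} {P P' : MvPolynomial (Fin n) ℂ} {t t' : Fin n →₀ ℕ}
    (hy : ∀ i, y i ≠ 0) (h : Rep y w f P t) (h' : Rep y w f' P' t') :
    Rep y w (f * f') (P * P') (t + t') := by
  refine ⟨?_, ?_⟩
  · rw [ex_add, pr_add]
    exact h.1.mul h'.1
  · rw [map_mul, ← h.2, ← h'.2, ex_add, ch_add hy]
    ring

theorem Rep.add {f f' : L} {P P' : MvPolynomial (Fin n) ℂ} {t t' : Fin n →₀ ℕ}
    (hy : ∀ i, y i ≠ 0) (h : Rep y w f P t) (h' : Rep y w f' P' t') :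
    Rep y w (f + f') (P * monomial t' 1 + P' * monomial t 1) (t + t') := by
  refine ⟨?_, ?_⟩
  · rw [ex_add, pr_add]
    refine (h.1.mul (Ge.monomial t' 1)).add ?_
    rw [add_comm]
    exact h'.1.mul (Ge.monomial t 1)
  · rw [map_add, map_mul, map_mul, ← h.2, ← h'.2, ex_add, ch_add hy, ← ch_ex, ← ch_ex]
    ring

theorem exists_rep (hy : ∀ i, y i ≠ 0) {f : L} (hf : f ∈ AA y (Hs w)) :
    ∃ P t, Rep y w f P t := by
  induction hf using Algebra.adjoin_induction with
  | mem x hx =>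
    obtain ⟨m, hm, rfl⟩ := hx
    obtain ⟨s, t, hst⟩ := exists_nat_ex m
    refine ⟨monomial s 1, t, ?_, ?_⟩
    · refine (Ge.monomial s 1).mono ?_
      have h1 : 0 ≤ pr m w := hm
      rw [hst, pr_sub] at h1
      omega
    · rw [← ch_ex, ← ch_add hy, hst, sub_add_cancel]
  | algebraMap r =>
    refine ⟨C r, 0, ?_, ?_⟩
    · have := Ge.monomial (w := w) 0 r
      exact this
    · rw [aeval_C]
      have : (ex (0 : Fin n →₀ ℕ)) = 0 := by funext i; simp [Pool.Agent.TH165.ACC.ex]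
      rw [this, ch_zero, mul_one]
  | add x z _ _ hx hz =>
    obtain ⟨P, t, h⟩ := hx
    obtain ⟨P', t', h'⟩ := hz
    exact ⟨_, _, h.add hy h'⟩
  | mul x z _ _ hx hz =>
    obtain ⟨P, t, h⟩ := hx
    obtain ⟨P', t', h'⟩ := hz
    exact ⟨_, _, h.mul hy h'⟩

section wd

variable (hw : Prim w) (hy : ∀ i, y i ≠ 0) (hF : F ≠ 0) (ker : ∀ P, aeval y P = 0 ↔ F ∣ P)
  (hη : ∀ i, η i ≠ 0) (hFη : aeval η (lead w F) = 0)

include hw hF ker hη hFη in
theorem zero_pos {Q : MvPolynomial (Fin n) ℂ} {k : ℤ} (hQ : Ge w k Q) (h0 : aeval y Q = 0) :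
    (w0 κ).Pos (aeval (yk η w) Q * tt κ ^ (-k)) := by
  by_cases hQ0 : Q = 0
  · left; rw [hQ0, map_zero, zero_mul]
  obtain ⟨H, rfl⟩ := (ker Q).1 h0
  have hH := right_ne_zero_of_mul hQ0
  have h1 := phi_mul hw hF hH
  obtain ⟨⟨s, hs, h2⟩, -⟩ := phi_expo hQ0 w
  have h3 := hQ s hs
  have h4 : (w0 κ).Pos (aeval (yk η w) F * tt κ ^ (-(phi (expo F) w))) := by
    have h5 := (res hη (Ge.phi (w := w) hF)).2
    rw [← lead_phi hF, hFη, map_zero, sub_zero] at h5
    exact h5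
  have h5 := (res hη (Ge.phi (w := w) hH)).1
  have h6 : (w0 κ).Reg (tt κ ^ (phi (expo F) w + phi (expo H) w - k)) := by
    right
    rw [(w0 κ).ord_zpow tt_ne, w0_tt]
    omega
  have h7 := (w0 κ).pos_mul_left h6 ((w0 κ).pos_mul_left h5 h4)
  convert h7 using 1
  rw [map_mul]
  have h8 : tt κ ^ (-k) = tt κ ^ (phi (expo F) w + phi (expo H) w - k) *
      (tt κ ^ (-(phi (expo H) w)) * tt κ ^ (-(phi (expo F) w))) := by
    rw [← zpow_add₀ tt_ne, ← zpow_add₀ tt_ne]
    congr 1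
    ring
  rw [h8]
  ring

include hw hy hF ker hη hFη in
/-- the residue is well defined -/
theorem wd {f : L} {P P' : MvPolynomial (Fin n) ℂ} {t t' : Fin n →₀ ℕ}
    (h : Rep y w f P t) (h' : Rep y w f P' t') (hp : (w0 κ).Pos (vl η w P t)) :
    (w0 κ).Pos (vl η w P' t') := by
  have hQ : Ge w (pr (ex (t + t')) w) (P * monomial t' 1 - P' * monomial t 1) := by
    rw [ex_add, pr_add]
    refine (h.1.mul (Ge.monomial t' 1)).sub ?_
    rw [add_comm]
    exact h'.1.mul (Ge.monomial t 1)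
  have h0 : aeval y (P * monomial t' 1 - P' * monomial t 1) = 0 := by
    rw [map_sub, map_mul, map_mul, ← h.2, ← h'.2, ← ch_ex, ← ch_ex]
    ring
  have h1 := zero_pos hw hF ker hη hFη hQ h0
  have h2 : aeval (yk η w) (P * monomial t' 1 - P' * monomial t 1) *
      tt κ ^ (-pr (ex (t + t')) w) =
      vl η w P t * vl η w (monomial t' 1) t' - vl η w P' t' * vl η w (monomial t 1) t := by
    rw [← vl_mul, ← vl_mul, vl, vl, map_sub, add_comm t' t]
    ring
  rw [h2] at h1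
  obtain ⟨hu, hu0⟩ := unit_mon (η := η) (w := w) hη t
  obtain ⟨hu', hu0'⟩ := unit_mon (η := η) (w := w) hη t'
  apply pos_of_mul_unit hu hu0
  have h3 := (w0 κ).pos_add (pos_mul_unit hu' hu0' hp) (pos_neg' h1)
  convert h3 using 1
  ring

/-- the prime ideal of the divisor -/
noncomputable def PI : Ideal (AA y (Hs w)) where
  carrier := {f | ∃ P t, Rep y w (f : L) P t ∧ (w0 κ).Pos (vl η w P t)}
  zero_mem' := by
    refine ⟨0, 0, ⟨Ge.zero, by simp⟩, Or.inl ?_⟩
    rw [vl, map_zero, zero_mul]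
  add_mem' := by
    rintro f f' ⟨P, t, h, hp⟩ ⟨P', t', h', hp'⟩
    refine ⟨_, _, h.add hy h', ?_⟩
    have h2 : vl η w (P * monomial t' 1 + P' * monomial t 1) (t + t') =
        vl η w P t * vl η w (monomial t' 1) t' + vl η w P' t' * vl η w (monomial t 1) t := by
      rw [← vl_mul, ← vl_mul, vl, vl, vl, map_add, add_comm t' t]
      ring
    rw [h2]
    obtain ⟨hu, hu0⟩ := unit_mon (η := η) (w := w) hη t
    obtain ⟨hu', hu0'⟩ := unit_mon (η := η) (w := w) hη t'
    exact (w0 κ).pos_add (pos_mul_unit hu' hu0' hp) (pos_mul_unit hu hu0 hp')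
  smul_mem' := by
    rintro f f' ⟨P', t', h', hp'⟩
    obtain ⟨P, t, h⟩ := exists_rep hy f.2
    refine ⟨_, _, h.mul hy h', ?_⟩
    rw [vl_mul]
    exact (w0 κ).pos_mul_left (res hη h.1).1 hp'

include hw hF ker hFη in
theorem mem_PI {f : AA y (Hs w)} {P : MvPolynomial (Fin n) ℂ} {t : Fin n →₀ ℕ}
    (h : Rep y w (f : L) P t) : f ∈ PI (η := η) (w := w) hy hη ↔ (w0 κ).Pos (vl η w P t) := by
  constructor
  · rintro ⟨P', t', h', hp'⟩
    exact wd hw hy hF ker hη hFη h' h hp'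
  · intro hp
    exact ⟨P, t, h, hp⟩

include hw hF ker hFη in
theorem PI_prime : (PI (η := η) (w := w) hy hη).IsPrime where
  ne_top' := by
    rw [Ne, Ideal.eq_top_iff_one]
    intro h1
    have h2 : Rep y w ((1 : AA y (Hs w)) : L) 1 0 := by
      refine ⟨?_, ?_⟩
      · have := Ge.monomial (w := w) 0 1
        exact this
      · have : (ex (0 : Fin n →₀ ℕ)) = 0 := by funext i; simp [Pool.Agent.TH165.ACC.ex]
        rw [this, ch_zero, map_one]
        simp
    rw [mem_PI hw hy hF ker hη hFη h2] at h1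
    have h3 : vl η w 1 0 = 1 := by
      have : (ex (0 : Fin n →₀ ℕ)) = 0 := by funext i; simp [Pool.Agent.TH165.ACC.ex]
      rw [vl, map_one, this, pr_zero]
      simp
    rw [h3] at h1
    rcases h1 with h1 | h1
    · exact one_ne_zero h1
    · rw [(w0 κ).ord_one] at h1
      exact lt_irrefl _ h1
  mem_or_mem' := by
    intro f f' hff
    obtain ⟨P, t, h⟩ := exists_rep hy f.2
    obtain ⟨P', t', h'⟩ := exists_rep hy f'.2
    have h2 : Rep y w ((f * f' : AA y (Hs w)) : L) (P * P') (t + t') := h.mul hy h'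
    rw [mem_PI hw hy hF ker hη hFη h2, vl_mul] at hff
    rw [mem_PI hw hy hF ker hη hFη h, mem_PI hw hy hF ker hη hFη h']
    exact pos_or' (res hη h.1).1 (res hη h'.1).1 hff

end wd

end val

end Pool.Agent.K9h50.NH
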