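import Mathlib
import Pool.Agent.K9h50.NH.Val
import Pool.Agent.K9h50.NH.Low

/-!
# The canonical order of a divisor with given monomial weights
-/

set_option autoImplicit false
set_option linter.unusedSectionVars false

namespace Pool.Agent.K9h50.NH

open Pool.Agent.H436R3.Fol Pool.Agent.H436R3.KT Pool.Agent.W497.Mld MvPolynomial
open Pool.Agent.TH165.ACC (pr ex Prim Cn Hs lead part mldsR mvI mem_mvI ord_eq_zero_of_notMem
  lead_eq coeff_part pr_add pr_zero pr_neg pr_sub pr_smul pr_smul_right ex_add ex_inj exists_minor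
  euler_part support_euler coeff_euler)
open Pool.Agent.Helper43K9.NH

variable {d : ℕ} {L : Type} [Field L] [Algebra ℂ L] {g : HypGerm d L}

theorem ord_ge {n : ℕ} {y : Fin n → L} (hy : ∀ i, y i ≠ 0) {v : DVal L} {k : ℤ}
    {Q : MvPolynomial (Fin n) ℂ} (hQ : Ge (wt y v) k Q) (h0 : aeval y Q ≠ 0) :
    k ≤ v.ord (aeval y Q) := by
  obtain ⟨π, hπ, h1⟩ := v.surj
  have h3 := (reg_mul_zpow hπ h1 hy hQ).1
  have h4 := v.ord_nonneg (mul_ne_zero h0 (zpow_ne_zero _ hπ)) h3
  rw [v.map_mul _ _ h0 (zpow_ne_zero _ hπ), v.ord_zpow hπ, h1] at h4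
  omega

theorem der_AA {n : ℕ} {y : Fin n → L} {C : Set (Fin n → ℤ)} {v : DVal L} {D : Derivation ℂ L L}
    (h1 : ∀ f ∈ AA y C, v.Reg f) (h2 : ∀ m ∈ C, v.Reg (D (ch y m))) {f : L}
    (hf : f ∈ AA y C) : v.Reg (D f) := by
  induction hf using Algebra.adjoin_induction with
  | mem x hx =>
    obtain ⟨m, hm, rfl⟩ := hx
    exact h2 m hm
  | algebraMap r => rw [Derivation.map_algebraMap]; exact v.reg_zero
  | add x y _ _ hx hy => rw [map_add]; exact v.reg_add hx hy
  | mul x y hx' hy' hx hy =>
    rw [Derivation.leibniz, smul_eq_mul, smul_eq_mul]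
    exact v.reg_add (v.reg_mul (h1 x hx') hy) (v.reg_mul (h1 y hy') hx)

theorem reg_of_pos {v : DVal L} {f : L} (h : v.Pos f) : v.Reg f := h.imp id le_of_lt

theorem reg_int (v : DVal L) (k : ℤ) : v.Reg (k : L) := by
  have := v.reg_const (k : ℂ)
  rwa [map_intCast] at this

theorem ord_int (v : DVal L) {k : ℤ} (hk : k ≠ 0) : (k : L) ≠ 0 ∧ v.ord (k : L) = 0 := by
  constructor
  · rw [Ne, ← map_intCast (algebraMap ℂ L), map_eq_zero_iff _ (algebraMap ℂ L).injective]
    exact_mod_cast hk
  · have := v.const (k : ℂ) (by exact_mod_cast hk)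
    rwa [map_intCast] at this

theorem can_div {v : DVal L} (hw : Prim (wt g.y v)) (hv : IsLocalRing' (AA g.y (Hs (wt g.y v))) v)
    (k : Fin (d + 1)) (hk0 : aeval g.y (X k * pderiv k g.F) ≠ 0)
    (hk : v.ord (aeval g.y (X k * pderiv k g.F)) = phi (expo g.F) (wt g.y v))
    (hlow : ∀ A : Matrix (Fin g.X.d) (Fin g.X.d) L, A.det ≠ 0 →
      (∀ i, Preserves v (∑ j, A i j • g.X.T.D j)) →
      -1 - phi (expo g.F) (wt g.y v) ≤ v.ord A.det) :
    IsCanOrd g.X.T v (-1 - phi (expo g.F) (wt g.y v)) := by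
  classical
  set w : Fin (d + 1) → ℤ := wt g.y v with hwdef
  set φ : ℤ := phi (expo g.F) w with hφ
  obtain ⟨m1, hm1⟩ := id hw
  have hy := g.yne
  let κ : Fin (d + 1) → L := fun a => aeval g.y (X a * pderiv a g.F)
  have hκk : κ k ≠ 0 := hk0
  let τ : Matrix (Fin d) (Fin d) L := Matrix.of fun (j i : Fin d) =>
    g.X.T.D (g.e.symm j) (g.y (k.succAbove i)) / g.y (k.succAbove i)
  have hτ : τ.det = (-1) ^ (k : ℕ) * κ k := g.res k
  have hτ0 : τ.det ≠ 0 := by
    rw [hτ]
    exact mul_ne_zero (pow_ne_zero _ (by norm_num)) hκk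
  have hτu : IsUnit τ.det := isUnit_iff_ne_zero.2 hτ0
  have hτo : v.ord τ.det = φ := by
    rw [hτ, v.map_mul _ _ (pow_ne_zero _ (by norm_num)) hκk, v.ord_pow (by norm_num),
      v.ord_neg one_ne_zero, v.ord_one, mul_zero, zero_add]
    exact hk
  let E : Fin d → Derivation ℂ L L := fun i => ∑ j, τ⁻¹ i j • g.X.T.D (g.e.symm j)
  have hEf : ∀ i f, E i f = ∑ j, τ⁻¹ i j * g.X.T.D (g.e.symm j) f := by
    intro i f
    change (∑ j, τ⁻¹ i j • g.X.T.D (g.e.symm j)) f = _
    rw [der_sum_apply]
  have hE1 : ∀ i i', E i (g.y (k.succAbove i')) / g.y (k.succAbove i') =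
      if i = i' then 1 else 0 := by
    intro i i'
    have h1 : (τ⁻¹ * τ) i i' = (1 : Matrix (Fin d) (Fin d) L) i i' := by
      rw [Matrix.nonsing_inv_mul τ hτu]
    rw [Matrix.mul_apply, Matrix.one_apply] at h1
    rw [← h1, hEf, Finset.sum_div]
    refine Finset.sum_congr rfl fun j _ => ?_
    simp only [τ, Matrix.of_apply]
    rw [mul_div_assoc]
  have hE2 : ∀ i, E i (g.y k) / g.y k = -(κ (k.succAbove i) / κ k) := by
    intro i
    have h1 := der_aeval' (E i) hy g.F
    rw [F_zero, map_zero, Fin.sum_univ_succAbove _ k, Finset.sum_eq_single i] at h1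
    · rw [hE1, if_pos rfl, one_mul] at h1
      have h2 : E i (g.y k) / g.y k * κ k = -κ (k.succAbove i) := by
        have : E i (g.y k) / g.y k * κ k + κ (k.succAbove i) = 0 := h1.symm
        linear_combination this
      rw [← neg_div, eq_div_iff hκk, h2]
    · intro j _ hj
      rw [hE1, if_neg hj.symm, zero_mul]
    · intro h; exact absurd (Finset.mem_univ _) h
  have hκGe : ∀ a, Ge w φ (X a * pderiv a g.F) := fun a s hs =>
    (phi_expo g.Fne w).2 s (support_euler a _ hs)
  have hκr : ∀ (Q : MvPolynomial (Fin (d + 1)) ℂ) (l : ℤ), Ge w (φ + l) Q →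
      aeval g.y Q / κ k = 0 ∨ l ≤ v.ord (aeval g.y Q / κ k) := by
    intro Q l hQ
    by_cases h0 : aeval g.y Q = 0
    · left; rw [h0, zero_div]
    · right
      have h1 := ord_ge hy hQ h0
      rw [v.ord_div h0 hκk]
      have h2 : v.ord (κ k) = φ := hk
      omega
  have hE3 : ∀ i, v.Reg (E i (g.y k) / g.y k) := by
    intro i
    rw [hE2]
    refine v.reg_neg ?_
    have := hκr (X (k.succAbove i) * pderiv (k.succAbove i) g.F) 0 (by
      rw [add_zero]; exact hκGe _)
    exact this
  have hEall : ∀ i a, v.Reg (E i (g.y a) / g.y a) := by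
    intro i a
    by_cases ha : a = k
    · rw [ha]; exact hE3 i
    · obtain ⟨i', rfl⟩ := Fin.exists_succAbove_eq ha
      rw [hE1]
      split_ifs
      · exact v.reg_one
      · exact v.reg_zero
  have hEpres : ∀ i, Preserves v (E i) := by
    intro i
    refine preserves_of v hv fun f hf => der_AA hv.1 (fun m hm => ?_) hf
    rw [der_ch _ hy]
    refine v.reg_mul ?_ (hv.1 _ (ch_mem_AA hm))
    exact v.O.sum_mem fun a _ => v.reg_mul (reg_int v _) (hEall i a)
  -- the Euler derivation
  let c : Fin d → L := fun i => (w (k.succAbove i) : L)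
  let D0 : Derivation ℂ L L := ∑ i, c i • E i
  have hD0f : ∀ f, D0 f = ∑ i, c i * E i f := fun f => der_sum_apply _ _ _ f
  have hD0a : ∀ i, D0 (g.y (k.succAbove i)) / g.y (k.succAbove i) = c i := by
    intro i
    rw [hD0f, Finset.sum_div, Finset.sum_eq_single i]
    · rw [mul_div_assoc, hE1, if_pos rfl, mul_one]
    · intro j _ hj
      rw [mul_div_assoc, hE1, if_neg hj, mul_zero]
    · intro h; exact absurd (Finset.mem_univ _) h
  set ω : L := D0 (g.y k) / g.y k with hω
  have hω1 : v.Pos (ω - (w k : L)) := by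
    have h1 : ω - (w k : L) = -((∑ a, (w a : L) * κ a) / κ k) := by
      rw [hω, hD0f, Finset.sum_div, Fin.sum_univ_succAbove _ k, add_div, Finset.sum_div]
      have h2 : ∀ i, c i * E i (g.y k) / g.y k = -((w (k.succAbove i) : L) *
          κ (k.succAbove i) / κ k) := by
        intro i
        rw [mul_div_assoc, hE2]
        simp only [c]
        ring
      rw [Finset.sum_congr rfl fun i _ => h2 i, Finset.sum_neg_distrib,
        mul_div_cancel_right₀ _ hκk]
      ring
    have h2 : ∑ a, (w a : L) * κ a =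
        aeval g.y (∑ a, C (w a : ℂ) * (X a * pderiv a g.F) - C (φ : ℂ) * g.F) := by
      rw [map_sub, map_sum, map_mul _ (C (φ : ℂ)), F_zero, mul_zero, sub_zero]
      refine Finset.sum_congr rfl fun a _ => ?_
      rw [map_mul, aeval_C, map_intCast]
    have h3 : Ge w (φ + 1) (∑ a, C (w a : ℂ) * (X a * pderiv a g.F) - C (φ : ℂ) * g.F) := by
      intro s hs
      have h4 : (∑ a, C (w a : ℂ) * (X a * pderiv a g.F) - C (φ : ℂ) * g.F).coeff s =
          ((pr (ex s) w : ℂ) - φ) * g.F.coeff s := by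
        rw [coeff_sub, coeff_sum, coeff_C_mul]
        simp only [coeff_C_mul, coeff_euler]
        rw [sub_mul, pr]
        push_cast
        rw [Finset.sum_mul]
        congr 1
        exact Finset.sum_congr rfl fun a _ => by
          simp only [Pool.Agent.TH165.ACC.ex]
          push_cast
          ring
      rw [mem_support_iff, h4] at hs
      have h5 := left_ne_zero_of_mul hs
      have h6 := (phi_expo g.Fne w).2 s (mem_support_iff.2 (right_ne_zero_of_mul hs))
      have h7 : pr (ex s) w ≠ φ := by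
        intro h8
        apply h5
        rw [h8, sub_self]
      omega
    rw [h1, h2]
    have h4 := hκr _ 1 h3
    exact pos_neg' (h4.imp id fun h5 => by omega)
  have hD0ch : ∀ m : Fin (d + 1) → ℤ, D0 (ch g.y m) =
      ((pr m w : L) + (m k : L) * (ω - (w k : L))) * ch g.y m := by
    intro m
    rw [der_ch _ hy]
    congr 1
    rw [Fin.sum_univ_succAbove _ k, pr, Fin.sum_univ_succAbove _ k]
    rw [Finset.sum_congr rfl fun i _ => by rw [hD0a i]]
    push_cast
    simp only [c]
    ring
  have hDpres : Preserves v ((ch g.y m1)⁻¹ • D0) := by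
    refine preserves_of v hv fun f hf => der_AA hv.1 (fun m hm => ?_) hf
    have hm' : 0 ≤ pr m w := hm
    rw [Derivation.smul_apply, smul_eq_mul, hD0ch]
    have ht : v.ord (ch g.y m1)⁻¹ = -1 := by
      rw [v.ord_inv (ch_ne hy _), ord_ch hy, ← hwdef, hm1]
    have hreg : v.Reg ((pr m w : L) + (m k : L) * (ω - (w k : L))) :=
      v.reg_add (reg_int v _) (reg_of_pos (v.pos_mul_left (reg_int v _) hω1))
    by_cases h3 : pr m w = 0
    · have h4 : v.Pos ((pr m w : L) + (m k : L) * (ω - (w k : L))) := by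
        rw [h3, Int.cast_zero, zero_add]
        exact v.pos_mul_left (reg_int v _) hω1
      rcases h4 with h4 | h4
      · rw [h4]; left; ring
      · by_cases h5 : (pr m w : L) + (m k : L) * (ω - (w k : L)) = 0
        · rw [h5]; left; ring
        · right
          rw [v.map_mul _ _ (inv_ne_zero (ch_ne hy _)) (mul_ne_zero h5 (ch_ne hy _)),
            v.map_mul _ _ h5 (ch_ne hy _), ht, ord_ch hy, ← hwdef]
          omega
    · have h4 : v.Reg ((ch g.y m1)⁻¹ * ch g.y m) := by
        right
        rw [v.map_mul _ _ (inv_ne_zero (ch_ne hy _)) (ch_ne hy _), ht, ord_ch hy, ← hwdef]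
        omega
      have h5 := v.reg_mul hreg h4
      convert h5 using 1
      ring
  obtain ⟨i0, hi0⟩ : ∃ i, w (k.succAbove i) ≠ 0 := by
    by_contra h
    push Not at h
    have h1 : D0 = 0 := by
      apply Finset.sum_eq_zero
      intro i _
      simp only [c]
      rw [h i, Int.cast_zero, zero_smul]
    have h2 := hD0ch m1
    rw [h1, hm1] at h2
    have h3 : ((1 : ℤ) : L) + (m1 k : L) * (ω - (w k : L)) = 0 := by
      have : (0 : Derivation ℂ L L) (ch g.y m1) = 0 := rfl
      rw [this] at h2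
      exact (mul_eq_zero.1 h2.symm).resolve_right (ch_ne hy _)
    have h4 : v.Pos (1 : L) := by
      have h5 := pos_neg' (v.pos_mul_left (reg_int v (m1 k)) hω1)
      have h6 : -((m1 k : L) * (ω - (w k : L))) = 1 := by
        rw [Int.cast_one] at h3
        linear_combination -h3
      rwa [h6] at h5
    rcases h4 with h4 | h4
    · exact one_ne_zero h4
    · rw [v.ord_one] at h4
      exact lt_irrefl _ h4
  let c' : Fin d → L := fun i => (ch g.y m1)⁻¹ * c i
  let B : Matrix (Fin d) (Fin d) L := (1 : Matrix (Fin d) (Fin d) L).updateRow i0 c'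
  have hdet : B.det = c' i0 := by
    have h1 := Matrix.det_updateRow_sum (1 : Matrix (Fin d) (Fin d) L) i0 c'
    have h2 : (∑ k, c' k • (1 : Matrix (Fin d) (Fin d) L) k) = c' := by
      funext j
      rw [Finset.sum_apply, Finset.sum_eq_single j]
      · simp
      · intro k _ hk
        simp [Matrix.one_apply_ne hk]
      · intro h; exact absurd (Finset.mem_univ _) h
    rw [h2, Matrix.det_one, smul_eq_mul, mul_one] at h1
    exact h1
  obtain ⟨hci, hcio⟩ := ord_int v hi0
  have hc'0 : c' i0 ≠ 0 := mul_ne_zero (inv_ne_zero (ch_ne hy _)) hci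
  have hc'o : v.ord (c' i0) = -1 := by
    change v.ord ((ch g.y m1)⁻¹ * (w (k.succAbove i0) : L)) = -1
    rw [v.map_mul _ _ (inv_ne_zero (ch_ne hy _)) hci, hcio, v.ord_inv (ch_ne hy _), ord_ch hy,
      ← hwdef, hm1]
    rfl
  have hτi : τ⁻¹.det ≠ 0 := by
    rw [Matrix.det_nonsing_inv, Ring.inverse_eq_inv']
    exact inv_ne_zero hτ0
  have hτio : v.ord τ⁻¹.det = -φ := by
    rw [Matrix.det_nonsing_inv, Ring.inverse_eq_inv', v.ord_inv hτ0, hτo]
  let A' : Matrix (Fin d) (Fin d) L := B * τ⁻¹
  have hA'0 : A'.det ≠ 0 := by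
    rw [Matrix.det_mul, hdet]
    exact mul_ne_zero hc'0 hτi
  have hA'o : v.ord A'.det = -1 - φ := by
    rw [Matrix.det_mul, hdet, v.map_mul _ _ hc'0 hτi, hc'o, hτio]
    ring
  have hrow : ∀ i, (∑ j, A' i j • g.X.T.D (g.e.symm j)) = ∑ l, B i l • E l := by
    intro i
    simp only [A', Matrix.mul_apply, Finset.sum_smul, E, Finset.smul_sum, smul_smul]
    rw [Finset.sum_comm]
  have hsub : ∀ i, (∑ j, (A'.submatrix g.e g.e) i j • g.X.T.D j) =
      ∑ j, A' (g.e i) j • g.X.T.D (g.e.symm j) := by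
    intro i
    rw [← g.e.sum_comp fun j => A' (g.e i) j • g.X.T.D (g.e.symm j)]
    refine Finset.sum_congr rfl fun j _ => ?_
    rw [Matrix.submatrix_apply, Equiv.symm_apply_apply]
  refine ⟨⟨A'.submatrix g.e g.e, ?_, fun i => ?_, ?_⟩, ?_⟩
  · rw [Matrix.det_submatrix_equiv_self]
    exact hA'0
  · rw [hsub, hrow]
    by_cases h : g.e i = i0
    · have h1 : (∑ l, B (g.e i) l • E l) = (ch g.y m1)⁻¹ • D0 := by
        rw [h]
        simp only [D0, Finset.smul_sum, smul_smul]
        refine Finset.sum_congr rfl fun j _ => ?_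
        have : B i0 j = c' j := by simp [B]
        rw [this]
      rw [h1]
      exact hDpres
    · have h1 : (∑ l, B (g.e i) l • E l) = E (g.e i) := by
        rw [Finset.sum_eq_single (g.e i)]
        · have : B (g.e i) (g.e i) = 1 := by
            simp [B, Matrix.updateRow_ne h]
          rw [this, one_smul]
        · intro j _ hj
          have : B (g.e i) j = 0 := by
            simp [B, Matrix.updateRow_ne h, Matrix.one_apply_ne hj.symm]
          rw [this, zero_smul]
        · intro h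
          exact absurd (Finset.mem_univ _) h
      rw [h1]
      exact hEpres _
  · rw [Matrix.det_submatrix_equiv_self]
    exact hA'o
  · rintro m ⟨A, hA0, hA, rfl⟩
    exact hlow A hA0 hA

end Pool.Agent.K9h50.NH
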