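import Mathlib
import Pool.Agent.K9h50.NH.Val

/-!
# The prime divisors of a hypersurface with given monomial weights: existence
-/

set_option autoImplicit false
set_option linter.unusedSectionVars false

namespace Pool.Agent.K9h50.NH

open Pool.Agent.H436R3.Fol Pool.Agent.H436R3.KT Pool.Agent.W497.Mld MvPolynomial
open Pool.Agent.TH165.ACC (pr ex Prim Cn Hs lead part mldsR mvI mem_mvI ord_eq_zero_of_notMem
  lead_eq coeff_part pr_add pr_zero pr_neg pr_sub pr_smul pr_smul_right ex_add ex_inj exists_minor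
  euler_part support_euler LL w0 tt tt_ne w0_tt kc kc_alg exists_mon IsMonomial tv exists_nat_ex)
open Pool.Agent.Helper43K9.NH

variable {n : ℕ} {L : Type} [Field L] [Algebra ℂ L]
  {κ : Type} [Field κ] [Algebra ℂ κ] {η : Fin n → κ} {w : Fin n → ℤ}
  {y : Fin n → L} {F p q : MvPolynomial (Fin n) ℂ}

/-- the fraction `Q (y) / y ^ t` -/
theorem mem_frac (hy : ∀ i, y i ≠ 0) {Q : MvPolynomial (Fin n) ℂ} {m : Fin n → ℤ}
    (h : Ge w (pr m w) Q) : aeval y Q * ch y (-m) ∈ AA y (Hs w) := by
  refine aeval_mul_mem_AA hy fun s hs => ?_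
  have h1 := h s hs
  change 0 ≤ pr _ _
  rw [pr_add, pr_neg]
  omega

theorem rep_frac (hy : ∀ i, y i ≠ 0) {Q : MvPolynomial (Fin n) ℂ} {t : Fin n →₀ ℕ}
    (h : Ge w (pr (ex t) w) Q) : Rep y w (aeval y Q * ch y (-ex t)) Q t := by
  refine ⟨h, ?_⟩
  rw [mul_assoc, ← ch_add hy, neg_add_cancel, ch_zero, mul_one]

theorem exists_div (hw : Prim w) (hy : ∀ i, y i ≠ 0) (hF : F ≠ 0)
    (ker : ∀ P, aeval y P = 0 ↔ F ∣ P)
    (hfrac : ∀ f : L, ∃ a b : L, a ∈ AA y (Hs w) ∧ b ∈ AA y (Hs w) ∧ b ≠ 0 ∧ f * b = a)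
    (hp : Prime p) (hpX : ∀ i, ¬ p ∣ X i) (hlead : lead w F = p * q) (hpq : ¬ p ∣ q) :
    ∃ v : DVal L, IsLocalRing' (AA y (Hs w)) v ∧ wt y v = w ∧
      ∀ Q, Q ≠ 0 → ¬ p ∣ lead w Q → aeval y Q ≠ 0 ∧
        v.ord (aeval y Q) = phi (expo Q) w := by
  classical
  have hprime : (Ideal.span {p}).IsPrime := (Ideal.span_singleton_prime hp.ne_zero).2 hp
  let D := MvPolynomial (Fin n) ℂ ⧸ Ideal.span {p}
  have hdom : IsDomain D := Ideal.Quotient.isDomain _
  let κ := FractionRing D
  let η : Fin n → κ := fun i => algebraMap D κ (Ideal.Quotient.mk _ (X i))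
  have hae : ∀ r : MvPolynomial (Fin n) ℂ, aeval η r =
      algebraMap D κ (Ideal.Quotient.mk (Ideal.span {p}) r) := by
    intro r
    have h : (aeval η : MvPolynomial (Fin n) ℂ →ₐ[ℂ] κ).toRingHom =
        (algebraMap D κ).comp (Ideal.Quotient.mk (Ideal.span {p})) := by
      apply ringHom_ext
      · intro c
        change aeval η (C c) = algebraMap D κ (Ideal.Quotient.mk _ (C c))
        rw [aeval_C, IsScalarTower.algebraMap_apply ℂ D κ]
        rfl
      · intro i
        change aeval η (X i) = _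
        rw [aeval_X]
        rfl
    exact RingHom.congr_fun h r
  have hκ : ∀ r : MvPolynomial (Fin n) ℂ, aeval η r = 0 ↔ p ∣ r := by
    intro r
    rw [hae, map_eq_zero_iff _ (IsFractionRing.injective D κ), Ideal.Quotient.eq_zero_iff_mem,
      Ideal.mem_span_singleton]
  have hη : ∀ i, η i ≠ 0 := by
    intro i h
    apply hpX i
    rw [← hκ, aeval_X]
    exact h
  have hFη : aeval η (lead w F) = 0 := by
    rw [hκ, hlead]
    exact dvd_mul_right _ _
  obtain ⟨m1, hm1⟩ := id hw
  -- a criterion for the prime ideal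
  have hnot : ∀ (Q : MvPolynomial (Fin n) ℂ) (t : Fin n →₀ ℕ), Ge w (pr (ex t) w) Q →
      ((w0 κ).Pos (vl η w Q t) ↔ p ∣ part w (pr (ex t) w) Q) := by
    intro Q t hQ
    have h1 := (res hη hQ).2
    constructor
    · intro h2
      rw [← hκ]
      apply pos_kc (κ := κ)
      have h3 := (w0 κ).pos_add h2 (pos_neg' h1)
      convert h3 using 1
      rw [vl]
      ring
    · intro h2
      rw [(hκ _).2 h2, map_zero, sub_zero] at h1
      exact h1
  let π : AA y (Hs w) := ⟨ch y m1, ch_mem_AA (by change 0 ≤ pr _ _; rw [hm1]; norm_num)⟩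
  have hπ0 : π ≠ 0 := by
    intro h
    exact ch_ne hy m1 (congrArg Subtype.val h)
  have hF' := hF
  have hp0 := hp.ne_zero
  have hq0 : q ≠ 0 := by
    rintro rfl
    exact hpq (dvd_zero _)
  have hlne : lead w F ≠ 0 := lead_ne hF
  have hφF : phi (expo p) w + phi (expo q) w = phi (expo F) w := by
    rw [← phi_mul hw hp0 hq0, ← hlead, lead_phi hF, phi_part]
    rw [← lead_phi hF]
    exact hlne
  have hqhom : part w (phi (expo q) w) q = q :=
    hom_factor (P := p) (k := phi (expo F) w) hw (by rw [← hlead]; exact hlne)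
      (by rw [← hlead]; exact fun s hs => (lead_support hF s hs).2)
  obtain ⟨⟨tq, htq, htq'⟩, -⟩ := phi_expo hq0 w
  have hqGe : Ge w (pr (ex tq) w) q := by rw [← htq']; exact Ge.phi hq0
  have hloc : ∀ a ∈ PI (η := η) (w := w) hy hη, ∃ s : AA y (Hs w),
      s ∉ PI (η := η) (w := w) hy hη ∧ ∃ b : AA y (Hs w), s * a = π * b := by
    rintro a ⟨P, t, ha, hpos⟩
    obtain ⟨r, hr⟩ := (hnot P t ha.1).1 hpos
    set k := pr (ex t) w with hk
    set kq := pr (ex tq) w with hkq
    have hrGe : Ge w (k + kq - phi (expo F) w) r := by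
      by_cases hr0 : r = 0
      · rw [hr0]; exact Ge.zero
      · have h1 : phi (expo (part w k P)) w = k := by
          apply phi_part
          rw [hr]
          exact mul_ne_zero hp0 hr0
        rw [hr, phi_mul hw hp0 hr0] at h1
        have h2 : k + kq - phi (expo F) w = phi (expo r) w := by
          rw [← htq', ← hφF]
          omega
        rw [h2]
        exact Ge.phi hr0
    let P' : MvPolynomial (Fin n) ℂ := q * P - r * F
    have hP' : P' = q * (P - part w k P) - r * (F - lead w F) := by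
      rw [hlead, hr]
      change q * P - r * F = _
      ring
    have hP'Ge : Ge w (kq + k + 1) P' := by
      rw [hP']
      refine Ge.sub ?_ ?_
      · have := hqGe.mul ha.1.sub_part
        rw [← hk, ← add_assoc] at this
        exact this
      · have h1 : Ge w (phi (expo F) w + 1) (F - lead w F) := by
          rw [lead_phi hF]
          exact (Ge.phi hF).sub_part
        have := hrGe.mul h1
        convert this using 1
        ring
    have hs : aeval y q * ch y (-ex tq) ∈ AA y (Hs w) := mem_frac hy hqGe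
    have hb : aeval y P' * ch y (-(ex tq + ex t + m1)) ∈ AA y (Hs w) := by
      refine mem_frac hy ?_
      rw [pr_add, pr_add, hm1]
      exact hP'Ge
    refine ⟨⟨_, hs⟩, ?_, ⟨_, hb⟩, ?_⟩
    · rw [mem_PI hw hy hF ker hη hFη (rep_frac hy hqGe), hnot q tq hqGe, ← hkq, ← htq', hqhom]
      exact hpq
    · apply Subtype.ext
      change aeval y q * ch y (-ex tq) * (a : L) = ch y m1 * (aeval y P' * ch y (-(ex tq + ex t + m1)))
      have h1 : (a : L) = aeval y P * ch y (-ex t) := by
        rw [← ha.2, mul_assoc, ← ch_add hy, add_neg_cancel, ch_zero, mul_one]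
      have h2 : aeval y P' = aeval y q * aeval y P := by
        change aeval y (q * P - r * F) = _
        rw [map_sub, map_mul, map_mul, (ker F).2 dvd_rfl, mul_zero, sub_zero]
      rw [h1, h2]
      have h3 : ch y (-(ex tq + ex t + m1)) * ch y m1 = ch y (-ex tq) * ch y (-ex t) := by
        rw [← ch_add hy, ← ch_add hy]
        congr 1
        abel
      calc aeval y q * ch y (-ex tq) * (aeval y P * ch y (-ex t)) =
          aeval y q * aeval y P * (ch y (-ex tq) * ch y (-ex t)) := by ring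
        _ = _ := by rw [← h3]; ring
  have hπP : π ∈ PI (η := η) (w := w) hy hη := by
    obtain ⟨s, t, hst⟩ := exists_nat_ex m1
    have h1 : Rep y w (π : L) (monomial s 1) t := by
      refine ⟨(Ge.monomial s 1).mono ?_, ?_⟩
      · have h2 := hm1
        rw [hst, pr_sub] at h2
        omega
      · change ch y m1 * _ = _
        rw [← ch_ex, ← ch_add hy, hst, sub_add_cancel]
    rw [mem_PI hw hy hF ker hη hFη h1, hnot _ _ h1.1]
    have h3 : part w (pr (ex t) w) (monomial s (1 : ℂ)) = 0 := by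
      ext r
      rw [coeff_part, coeff_monomial, coeff_zero]
      by_cases h4 : s = r
      · rw [if_neg]
        rw [← h4]
        have h2 := hm1
        rw [hst, pr_sub] at h2
        omega
      · rw [if_neg h4, ite_self]
    rw [h3]
    exact dvd_zero _
  obtain ⟨v, hv, hvP, hvπ⟩ := exists_dval_unif (fg_Hs' hy hw) hfrac
    (PI (η := η) (w := w) hy hη) (PI_prime hw hy hF ker hη hFη) π hπ0 hπP hloc
  have hord : ∀ (Q : MvPolynomial (Fin n) ℂ) (t : Fin n →₀ ℕ), Ge w (pr (ex t) w) Q →
      ¬ p ∣ part w (pr (ex t) w) Q → aeval y Q ≠ 0 ∧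
        v.ord (aeval y Q * ch y (-ex t)) = 0 := by
    intro Q t hQ hn
    have h1 : (⟨_, mem_frac hy hQ⟩ : AA y (Hs w)) ∉ PI (η := η) (w := w) hy hη := by
      rw [mem_PI hw hy hF ker hη hFη (rep_frac hy hQ), hnot Q t hQ]
      exact hn
    rw [← hvP] at h1
    have h2 := hv.1 _ (mem_frac hy hQ)
    have h3 : aeval y Q * ch y (-ex t) ≠ 0 := fun h => h1 (Or.inl h)
    refine ⟨left_ne_zero_of_mul h3, ?_⟩
    have h4 := v.ord_nonneg h3 h2
    by_contra h5
    exact h1 (Or.inr (by change 0 < v.ord (aeval y Q * ch y (-ex t)); omega))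
  -- monomials of weight zero are units
  have hch0 : ∀ m : Fin n → ℤ, pr m w = 0 → v.ord (ch y m) = 0 := by
    intro m hm
    have key : ∀ m : Fin n → ℤ, pr m w = 0 → 0 ≤ v.ord (ch y m) := by
      intro m hm
      exact v.ord_nonneg (ch_ne hy m) (hv.1 _ (ch_mem_AA (by change 0 ≤ pr _ _; omega)))
    have h1 := key m hm
    have h2 := key (-m) (by rw [pr_neg, hm, neg_zero])
    rw [ch_neg, v.ord_inv (ch_ne hy m)] at h2
    omega
  have hvπ' : v.ord (ch y m1) = 1 := hvπ
  have hwt : wt y v = w := by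
    funext i
    have h1 : pr (Pi.single i 1 - w i • m1) w = 0 := by
      rw [pr_sub, pr_smul, hm1, pr, Finset.sum_eq_single i]
      · simp
      · intro j _ hj
        simp [hj]
      · intro h; exact absurd (Finset.mem_univ _) h
    have h2 := hch0 _ h1
    have h3 : y i = ch y (Pi.single i 1 - w i • m1) * ch y m1 ^ w i := by
      rw [← ch_smul hy, ← ch_add hy, sub_add_cancel, ch, Finset.prod_eq_single i]
      · simp
      · intro j _ hj
        simp [hj]
      · intro h; exact absurd (Finset.mem_univ _) h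
    rw [wt, h3, v.map_mul _ _ (ch_ne hy _) (zpow_ne_zero _ (ch_ne hy _)), h2,
      v.ord_zpow (ch_ne hy _), hvπ']
    ring
  refine ⟨v, hv, hwt, fun Q hQ hpQ => ?_⟩
  obtain ⟨⟨s, hs, h1⟩, h2⟩ := phi_expo hQ w
  have hGe : Ge w (pr (ex s) w) Q := by rw [← h1]; exact h2
  obtain ⟨h3, h4⟩ := hord Q s hGe (by rw [← h1, ← lead_phi hQ]; exact hpQ)
  refine ⟨h3, ?_⟩
  rw [v.map_mul _ _ h3 (ch_ne hy _), ord_ch hy, hwt, pr_neg] at h4
  rw [h1]
  omega

end Pool.Agent.K9h50.NH
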