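import Mathlib
import Pool.Agent.K9h50.NH.Div
import Pool.Agent.K9h50.NH.Can

/-!
# Prime divisors over a nondegenerate hypersurface germ
-/

set_option autoImplicit false
set_option linter.unusedSectionVars false

namespace Pool.Agent.K9h50.NH

open Pool.Agent.H436R3.Fol Pool.Agent.H436R3.KT Pool.Agent.W497.Mld MvPolynomial
open Pool.Agent.TH165.ACC (pr ex Prim Cn Hs lead part mldsR mvI mem_mvI ord_eq_zero_of_notMem
  lead_eq coeff_part pr_add pr_zero pr_neg pr_sub pr_smul pr_smul_right ex_add ex_inj exists_minor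
  euler_part support_euler coeff_euler)
open Pool.Agent.Helper43K9.NH

section poly

variable {n : ℕ}

/-- a polynomial all of whose prime factors are variables is a monomial -/
theorem monomial_of_primes (A : MvPolynomial (Fin n) ℂ) (hA : A ≠ 0)
    (h : ∀ p, Prime p → p ∣ A → ∃ i, p ∣ X i) : ∃ s c, A = monomial s c := by
  induction A using UniqueFactorizationMonoid.induction_on_prime with
  | h₁ => exact absurd rfl hA
  | h₂ x hx =>
    obtain ⟨r, -, rfl⟩ := isUnit_iff_eq_C_of_isReduced.1 hx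
    exact ⟨0, r, rfl⟩
  | h₃ a p ha hp ih =>
    obtain ⟨s, c, rfl⟩ := ih ha fun q hq hqa => h q hq (hqa.mul_left p)
    obtain ⟨i, hi⟩ := h p hp (dvd_mul_right _ _)
    obtain ⟨u, hu⟩ := (hp.associated_of_dvd X_prime hi)
    obtain ⟨r, hr, hru⟩ := isUnit_iff_eq_C_of_isReduced.1 (u⁻¹).isUnit
    have h1 : p = X i * C r := by
      rw [← hru, ← hu, mul_assoc, Units.mul_inv, mul_one]
    refine ⟨Finsupp.single i 1 + s, r * c, ?_⟩
    rw [h1, C_apply, X, monomial_mul, monomial_mul, add_zero, one_mul]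

theorem exists_factor (A : MvPolynomial (Fin n) ℂ) {s t : Fin n →₀ ℕ} (hs : s ∈ A.support)
    (ht : t ∈ A.support) (hst : s ≠ t) : ∃ p, Prime p ∧ p ∣ A ∧ ∀ i, ¬ p ∣ X i := by
  by_contra hcon
  push Not at hcon
  have hA : A ≠ 0 := by
    rintro rfl
    simp at hs
  obtain ⟨r, c, rfl⟩ := monomial_of_primes A hA fun p hp hpA => hcon p hp hpA
  have h1 := support_monomial_subset hs
  have h2 := support_monomial_subset ht
  rw [Finset.mem_singleton] at h1 h2
  exact hst (h1.trans h2.symm)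

/-- a point of the torus -/
theorem exists_zero {p : MvPolynomial (Fin n) ℂ} (hp : Prime p) (hpX : ∀ i, ¬ p ∣ X i) :
    ∃ ξ : Fin n → ℂ, (∀ i, ξ i ≠ 0) ∧ eval ξ p = 0 := by
  have hprime : (Ideal.span {p}).IsPrime := (Ideal.span_singleton_prime hp.ne_zero).2 hp
  by_contra h2
  push Not at h2
  have h3 : (∏ i, (X i : MvPolynomial (Fin n) ℂ)) ∈
      vanishingIdeal ℂ (zeroLocus ℂ (Ideal.span {p})) := by
    rw [mem_vanishingIdeal_iff]
    intro ξ hξ
    have h4 : eval ξ p = 0 := by
      have := mem_zeroLocus_iff.1 hξ p (Ideal.mem_span_singleton_self p)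
      rwa [← coe_aeval_eq_eval]
    obtain ⟨i, hi⟩ : ∃ i, ξ i = 0 := by
      by_contra h5
      push Not at h5
      exact h2 ξ h5 h4
    rw [map_prod]
    exact Finset.prod_eq_zero (Finset.mem_univ i) (by rw [aeval_X, hi])
  rw [vanishingIdeal_zeroLocus_eq_radical, hprime.radical, hprime.prod_mem_iff] at h3
  obtain ⟨i, -, hi⟩ := h3
  exact hpX i (Ideal.mem_span_singleton.1 hi)

end poly

variable {d : ℕ} {L : Type} [Field L] [Algebra ℂ L] {g : HypGerm d L}

theorem mem_R {m : Fin (d + 1) → ℤ} (hm : m ∈ Cn g.E) : ch g.y m ∈ g.X.R := by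
  rw [g.hR]
  exact ch_mem_AA hm

theorem inn_cone {N n : ℕ} {E : Fin N → Fin n → ℤ} {w : Fin n → ℤ} (h : Inn E w)
    {m : Fin n → ℤ} (hm : m ∈ Cn E) : 0 ≤ pr m w := by
  by_cases h0 : m = 0
  · rw [h0, pr_zero]
  · exact (h m hm h0).le

theorem inn_of_over {v : DVal L} (h : IsOverGerm g.P v) : Inn g.E (wt g.y v) := by
  intro m hm hm0
  have h1 := (h.2 ⟨ch g.y m, mem_R hm⟩).2 (g.hP _ m hm hm0 rfl)
  rcases h1 with h1 | h1
  · exact absurd h1 (ch_ne g.yne _)
  · rw [← ord_ch g.yne]
    exact h1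

theorem pos_sub {v : DVal L} (h : Inn g.E (wt g.y v)) (f : g.X.R) :
    v.Pos ((f : L) - algebraMap ℂ L (g.P f)) := by
  have hreg : ∀ x ∈ g.X.R, v.Reg x := by
    intro x hx
    rw [g.hR] at hx
    exact reg_AA g.yne (fun m hm => inn_cone h hm) hx
  have key : ∀ x : L, x ∈ AA g.y (Cn g.E) → ∀ hx : x ∈ g.X.R,
      v.Pos (x - algebraMap ℂ L (g.P ⟨x, hx⟩)) := by
    intro x hx
    induction hx using Algebra.adjoin_induction with
    | mem x hx =>
      intro hx'
      obtain ⟨m, hm, rfl⟩ := hx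
      by_cases h0 : m = 0
      · left
        have h2 : (⟨ch g.y m, hx'⟩ : g.X.R) = 1 := by
          apply Subtype.ext
          change ch g.y m = 1
          rw [h0, ch_zero]
        rw [h2, map_one, map_one, h0, ch_zero, sub_self]
      · right
        rw [g.hP _ m hm h0 rfl, map_zero, sub_zero, ord_ch g.yne]
        exact h m hm h0
    | algebraMap r =>
      intro hx'
      left
      have h2 : (⟨algebraMap ℂ L r, hx'⟩ : g.X.R) = algebraMap ℂ g.X.R r := rfl
      rw [h2, AlgHom.commutes]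
      exact sub_self _
    | add x z hx hz ihx ihz =>
      intro hxz
      have hx' : x ∈ g.X.R := by rw [g.hR]; exact hx
      have hz' : z ∈ g.X.R := by rw [g.hR]; exact hz
      have h2 : (⟨x + z, hxz⟩ : g.X.R) = ⟨x, hx'⟩ + ⟨z, hz'⟩ := rfl
      have h3 := v.pos_add (ihx hx') (ihz hz')
      rw [h2, map_add, map_add]
      convert h3 using 1
      ring
    | mul x z hx hz ihx ihz =>
      intro hxz
      have hx' : x ∈ g.X.R := by rw [g.hR]; exact hx
      have hz' : z ∈ g.X.R := by rw [g.hR]; exact hz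
      have h2 : (⟨x * z, hxz⟩ : g.X.R) = ⟨x, hx'⟩ * ⟨z, hz'⟩ := rfl
      have h3 := v.pos_add (v.pos_mul_left (hreg z hz') (ihx hx'))
        (v.pos_mul_left (v.reg_const (g.P ⟨x, hx'⟩)) (ihz hz'))
      rw [h2, map_mul, map_mul]
      convert h3 using 1
      ring
  exact key f (by rw [← g.hR]; exact f.2) f.2

theorem pos_iff_P {v : DVal L} (h : Inn g.E (wt g.y v)) (f : g.X.R) :
    v.Pos (f : L) ↔ g.P f = 0 := by
  have h1 := pos_sub h f
  constructor
  · intro h2
    by_contra h3
    have h4 : v.Pos (algebraMap ℂ L (g.P f)) := by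
      have h5 := v.pos_add h2 (pos_neg' h1)
      convert h5 using 1
      ring
    rcases h4 with h4 | h4
    · rw [map_eq_zero] at h4
      exact h3 h4
    · rw [v.const _ h3] at h4
      exact lt_irrefl _ h4
  · intro h2
    rwa [h2, map_zero, sub_zero] at h1

theorem over_of {v : DVal L} (hp : Prim (wt g.y v))
    (hv : IsLocalRing' (AA g.y (Hs (wt g.y v))) v) (h : Inn g.E (wt g.y v)) :
    IsOverGerm g.P v := by
  refine ⟨⟨_, fg_Hs' g.yne hp, ?_, hv⟩, pos_iff_P h⟩
  rw [g.hR]
  exact AA_mono fun m hm => inn_cone h hm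

/-- the lower bound for the canonical order -/
theorem low0 {v : DVal L} (h : Inn g.E (wt g.y v)) (A : Matrix (Fin g.X.d) (Fin g.X.d) L)
    (hA0 : A.det ≠ 0) (hA : ∀ i, Preserves v (∑ j, A i j • g.X.T.D j)) :
    -1 - phi (expo g.F) (wt g.y v) ≤ v.ord A.det := by
  have h1 := jac (g := g) (s := 0) Fin.elim0 (fun j => j.elim0) v (fun ξ hξ h0 => by
    have huniq : Subsingleton {j : Option (Fin 0) //
        eval ξ (lead (wt g.y v) (sys g.F Fin.elim0 j)) = 0} := by
      constructor
      rintro ⟨a, ha⟩ ⟨b, hb⟩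
      cases a with
      | none =>
        cases b with
        | none => rfl
        | some j => exact j.elim0
      | some j => exact j.elim0
    rw [linearIndependent_subsingleton_index_iff]
    rintro ⟨a, ha⟩
    cases a with
    | none =>
      obtain ⟨i, hi⟩ := g.nondeg _ h ξ hξ h0
      intro h2
      have h3 := congrFun h2 i
      exact mul_ne_zero (hξ i) hi h3
    | some j => exact j.elim0) A hA0 hA
  simp only [Finset.univ_eq_empty, Finset.sum_empty] at h1
  linarith

/-- **Existence of prime divisors** with given weights. -/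
theorem exists_over {w : Fin (d + 1) → ℤ} (hw : Inn g.E w) (hprim : Prim w)
    (ht : Trop (expo g.F) w) : ∃ v : DVal L, IsOverGerm g.P v ∧ wt g.y v = w ∧
      IsCanOrd g.X.T v (-1 - phi (expo g.F) w) ∧
      ∀ (b : Bdy g) j, v.ord (aeval g.y (b.G j)) = phi (expo (b.G j)) w := by
  classical
  obtain ⟨m, hm, m', hm', hne, h1, h2⟩ := ht
  obtain ⟨s, hs, rfl⟩ := mem_expo.1 hm
  obtain ⟨s', hs', rfl⟩ := mem_expo.1 hm'
  have hl : ∀ t ∈ g.F.support, pr (ex t) w = phi (expo g.F) w → t ∈ (lead w g.F).support := by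
    intro t ht h3
    rw [lead_phi g.Fne, mem_support_iff, coeff_part, if_pos h3]
    exact mem_support_iff.1 ht
  obtain ⟨p, hp, ⟨q, hpq⟩, hpX⟩ := exists_factor (lead w g.F) (hl s hs h1) (hl s' hs' h2)
    (fun h => hne (by rw [h]))
  obtain ⟨ξ, hξ, hξp⟩ := exists_zero hp hpX
  have hξF : eval ξ (lead w g.F) = 0 := by rw [hpq, map_mul, hξp, zero_mul]
  have hgrad : ∀ i, eval ξ (pderiv i (lead w g.F)) = eval ξ q * eval ξ (pderiv i p) := by
    intro i
    rw [hpq, Derivation.leibniz, smul_eq_mul, smul_eq_mul, map_add, map_mul, map_mul, hξp]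
    ring
  obtain ⟨k, hk⟩ := g.nondeg w hw ξ hξ hξF
  have hqξ : eval ξ q ≠ 0 := by
    rw [hgrad] at hk
    exact left_ne_zero_of_mul hk
  have hndq : ¬ p ∣ q := by
    rintro ⟨r, rfl⟩
    apply hqξ
    rw [map_mul, hξp, zero_mul]
  have hfrac : ∀ f : L, ∃ a b : L, a ∈ AA g.y (Hs w) ∧ b ∈ AA g.y (Hs w) ∧ b ≠ 0 ∧ f * b = a := by
    intro f
    have hle : g.X.R ≤ AA g.y (Hs w) := by
      rw [g.hR]
      exact AA_mono fun m hm => inn_cone hw hm
    obtain ⟨a, b, ha, hb, h3, h4⟩ := g.X.frac f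
    exact ⟨a, b, hle ha, hle hb, h3, h4⟩
  obtain ⟨v, hv, hwt, hQ⟩ := exists_div hprim g.yne g.Fne g.ker hfrac hp hpX hpq hndq
  have hκ : part w (phi (expo g.F) w) (X k * pderiv k g.F) = X k * pderiv k (lead w g.F) := by
    rw [← euler_part, lead_phi g.Fne]
  have hκξ : eval ξ (X k * pderiv k (lead w g.F)) ≠ 0 := by
    rw [map_mul, eval_X]
    exact mul_ne_zero (hξ k) hk
  have hκp : ¬ p ∣ X k * pderiv k (lead w g.F) := by
    rintro ⟨r, hr⟩
    apply hκξ
    rw [hr, map_mul, hξp, zero_mul]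
  have hκne : X k * pderiv k g.F ≠ 0 := by
    intro h0
    apply hκξ
    rw [← hκ, h0]
    have : part w (phi (expo g.F) w) (0 : MvPolynomial (Fin (d + 1)) ℂ) = 0 := by
      ext s
      rw [coeff_part]
      simp
    rw [this, map_zero]
  have hκphi : phi (expo (X k * pderiv k g.F)) w = phi (expo g.F) w := by
    have h3 : X k * pderiv k (lead w g.F) ≠ 0 := by
      intro h0
      apply hκξ
      rw [h0, map_zero]
    rw [← hκ] at h3
    obtain ⟨⟨t, ht, h4⟩, -⟩ := phi_expo h3 w
    rw [phi_part h3] at h4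
    have h5 : t ∈ (X k * pderiv k g.F).support := by
      rw [mem_support_iff, coeff_part] at ht
      rw [if_pos h4.symm] at ht
      exact mem_support_iff.2 ht
    apply phi_eq
    · exact ⟨ex t, mem_expo.2 ⟨t, h5, rfl⟩, h4.symm⟩
    · intro m hm
      obtain ⟨r, hr, rfl⟩ := mem_expo.1 hm
      exact (phi_expo g.Fne w).2 r (support_euler k _ hr)
  obtain ⟨hκ0, hκo⟩ := hQ (X k * pderiv k g.F) hκne (by
    rw [lead_phi hκne, hκphi, hκ]
    exact hκp)
  rw [hκphi] at hκo
  refine ⟨v, ?_, hwt, ?_, ?_⟩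
  · subst hwt
    exact over_of hprim hv hw
  · subst hwt
    exact can_div hprim hv k hκ0 hκo fun A hA0 hA => low0 hw A hA0 hA
  · intro b j
    have hG0 : b.G j ≠ 0 := by
      intro h
      apply b.Gne j
      rw [h, map_zero]
    refine (hQ (b.G j) hG0 ?_).2
    rintro ⟨r, hr⟩
    have hli := b.nondeg w hw ξ hξ hξF
    have hξG : eval ξ (lead w (sys g.F b.G (some j))) = 0 := by
      change eval ξ (lead w (b.G j)) = 0
      rw [hr, map_mul, hξp, zero_mul]
    let x0 : {j : Option (Fin b.s) // eval ξ (lead w (sys g.F b.G j)) = 0} := ⟨none, hξF⟩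
    let x1 : {j : Option (Fin b.s) // eval ξ (lead w (sys g.F b.G j)) = 0} := ⟨some j, hξG⟩
    have hx : x0 ≠ x1 := by
      intro h
      have := congrArg (fun x => x.1) h
      simp [x0, x1] at this
    have hgradG : ∀ i, eval ξ (pderiv i (lead w (b.G j))) = eval ξ r * eval ξ (pderiv i p) := by
      intro i
      rw [hr, Derivation.leibniz, smul_eq_mul, smul_eq_mul, map_add, map_mul, map_mul, hξp]
      ring
    have h3 := (linearIndependent_iff'.1 hli) {x0, x1}
      (fun x => if x = x0 then -eval ξ r else eval ξ q) (by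
        rw [Finset.sum_pair hx]
        funext i
        simp only [Pi.add_apply, Pi.smul_apply, smul_eq_mul, if_true, if_neg hx.symm]
        change -eval ξ r * (ξ i * eval ξ (pderiv i (lead w g.F))) +
          eval ξ q * (ξ i * eval ξ (pderiv i (lead w (b.G j)))) = 0
        rw [hgrad, hgradG]
        ring) x1 (by simp)
    rw [if_neg hx.symm] at h3
    exact hqξ h3

end Pool.Agent.K9h50.NH
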