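import Mathlib
import Pool.Agent.K9h50.NH.Low

/-!
# The Jacobian inequality for arbitrary systems of functions
-/

set_option autoImplicit false
set_option linter.unusedSectionVars false

namespace Pool.Agent.K9h50.NH

open Pool.Agent.H436R3.Fol Pool.Agent.H436R3.KT Pool.Agent.W497.Mld MvPolynomial
open Pool.Agent.TH165.ACC (pr ex Prim Cn Hs lead part mldsR mvI mem_mvI ord_eq_zero_of_notMem
  lead_eq coeff_part pr_add pr_zero pr_neg pr_sub pr_smul pr_smul_right ex_add ex_inj exists_minor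
  euler_part support_euler)
open Pool.Agent.Helper43K9.NH

variable {d : ℕ} {L : Type} [Field L] [Algebra ℂ L] {g : HypGerm d L}

/-- The Jacobian inequality for a system `p` which contains `F = p x0`. -/
theorem jac_core {J : Type} [Fintype J] [DecidableEq J] (x0 : J)
    (p : J → MvPolynomial (Fin (d + 1)) ℂ) (hp0 : ∀ x, p x ≠ 0) (hx0 : p x0 = g.F)
    (v : DVal L) {π : L} (hπ : π ≠ 0) (h1 : v.ord π = 1) (ξ : Fin (d + 1) → ℂ)
    (hev : ∀ q, v.Pos (Ph hπ h1 g.yne q : L) → eval ξ q = 0)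
    (hli : LinearIndependent ℂ fun (x : J) (i : Fin (d + 1)) =>
      ξ i * eval ξ (pderiv i (lead (wt g.y v) (p x))))
    (A : Matrix (Fin g.X.d) (Fin g.X.d) L) (hA0 : A.det ≠ 0)
    (hA : ∀ i, Preserves v (∑ j, A i j • g.X.T.D j)) :
    (∀ x, x ≠ x0 → aeval g.y (p x) ≠ 0) ∧
      ∑ x, (if x = x0 then 0 else v.ord (aeval g.y (p x)) - phi (expo (p x)) (wt g.y v)) ≤
      v.ord A.det + 1 + phi (expo g.F) (wt g.y v) := by
  classical
  set u : Fin (d + 1) → ℤ := wt g.y v with hu
  set m : J → ℤ := fun x => phi (expo (p x)) u with hm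
  have hmin : ∀ x, (∃ t ∈ (p x).support, m x = pr (ex t) u) ∧
      ∀ t ∈ (p x).support, m x ≤ pr (ex t) u := fun x => phi_expo (hp0 x) u
  let 𝔭 : Ideal (MvPolynomial (Fin (d + 1)) ℂ) := (mvI v).comap (Ph hπ h1 g.yne)
  have hlead : ∀ x, lead u (p x) = part u (m x) (p x) := fun x => lead_eq (hmin x).1 (hmin x).2
  obtain ⟨σ, hσ, hdet⟩ := exists_minor (Matrix.of fun (x : J) (i : Fin (d + 1)) =>
    ξ i * eval ξ (pderiv i (lead u (p x)))) hli
  let Mp : Matrix J J (MvPolynomial (Fin (d + 1)) ℂ) :=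
    Matrix.of fun a b => X (σ a) * pderiv (σ a) (lead u (p b))
  have hMp : Mp.det ∉ 𝔭 := by
    intro h2
    apply hdet
    rw [← hev _ h2, RingHom.map_det]
    congr 1
    ext a b
    simp [Mp]
  let AO : Matrix J J v.O := Matrix.of fun a b =>
    ⟨aeval g.y (X (σ a) * pderiv (σ a) (p b)) * π ^ (-m b),
      (reg_mul_zpow hπ h1 g.yne fun t ht => (hmin b).2 t (support_euler _ _ ht)).1⟩
  have hAO : AO.det ∉ mvI v := by
    intro h2
    apply hMp
    have h3 : (Ideal.Quotient.mk (mvI v)).mapMatrix AO =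
        (Ideal.Quotient.mk (mvI v)).mapMatrix ((Ph hπ h1 g.yne).mapMatrix Mp) := by
      ext a b
      rw [RingHom.mapMatrix_apply, RingHom.mapMatrix_apply, RingHom.mapMatrix_apply,
        Matrix.map_apply, Matrix.map_apply, Matrix.map_apply, Ideal.Quotient.eq, mem_mvI]
      have h4 := (reg_mul_zpow hπ h1 g.yne
        fun t ht => (hmin b).2 t (support_euler (σ a) _ ht)).2
      rw [← hu, ← euler_part, ← hlead] at h4
      exact h4
    have h4 : Ideal.Quotient.mk (mvI v) AO.det =
        Ideal.Quotient.mk (mvI v) (Ph hπ h1 g.yne Mp.det) := by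
      rw [RingHom.map_det, h3, RingHom.map_det, RingHom.map_det]
    rw [Ideal.Quotient.eq_zero_iff_mem.2 h2] at h4
    change Ph hπ h1 g.yne Mp.det ∈ mvI v
    exact Ideal.Quotient.eq_zero_iff_mem.1 h4.symm
  obtain ⟨hd0, hd⟩ := ord_eq_zero_of_notMem hAO
  have hdK : (AO.det : L) = (Matrix.of fun a b : J =>
      aeval g.y (X (σ a) * pderiv (σ a) (p b)) * π ^ (-m b)).det := by
    have := v.O.subtype.map_det AO
    change (AO.det : L) = _ at this
    rw [this]
    rfl
  rw [hdK] at hd0 hd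
  let Cc : Type := ↑((Set.range σ)ᶜ)
  let ε : J ⊕ Cc ≃ Fin (d + 1) :=
    (Equiv.sumCongr (Equiv.ofInjective σ hσ) (Equiv.refl _)).trans
      (Equiv.Set.sumCompl (Set.range σ))
  let ε' : Fin (d + 1) ≃ J ⊕ Cc := (Equiv.swap 0 (ε (Sum.inl x0))).trans ε.symm
  have hε'0 : ε' 0 = Sum.inl x0 := by simp [ε']
  let H : J ⊕ Cc → MvPolynomial (Fin (d + 1)) ℂ := Sum.elim (fun x => p x) fun i => X i.1
  let q : Fin d → MvPolynomial (Fin (d + 1)) ℂ := fun i => H (ε' i.succ)
  have hcons : (Fin.cons g.F q : Fin (d + 1) → MvPolynomial (Fin (d + 1)) ℂ) = fun x => H (ε' x) := by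
    funext x
    refine Fin.cases ?_ (fun i => ?_) x
    · rw [Fin.cons_zero, hε'0]
      exact hx0.symm
    · rw [Fin.cons_succ]
  have hε'ne : ∀ i : Fin d, ε' i.succ ≠ Sum.inl x0 := by
    intro i h
    rw [← hε'0] at h
    exact Fin.succ_ne_zero i (ε'.injective h)
  let A1 : Matrix J J L := Matrix.of fun a b => aeval g.y (X (σ a) * pderiv (σ a) (p b))
  let C1 : Matrix Cc J L := Matrix.of fun a b => aeval g.y (X a.1 * pderiv a.1 (p b))
  let M : Matrix (J ⊕ Cc) (J ⊕ Cc) L := Matrix.of fun a b =>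
    aeval g.y (X (ε a) * pderiv (ε a) (H b))
  have hXd : ∀ i k : Fin (d + 1),
      aeval g.y (X i * pderiv i (X k) : MvPolynomial (Fin (d + 1)) ℂ) =
      if i = k then g.y k else 0 := by
    intro i k
    by_cases h : i = k
    · subst h; simp
    · rw [if_neg h, pderiv_X, Pi.single_apply, if_neg (Ne.symm h), mul_zero, map_zero]
  have hblock : M = Matrix.fromBlocks A1 0 C1 (Matrix.diagonal fun i : Cc => g.y i.1) := by
    ext x z
    rcases x with x | x <;> rcases z with z | z
    · rfl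
    · change aeval g.y (X (σ x) * pderiv (σ x) (X z.1)) = 0
      rw [hXd, if_neg]
      intro h2
      exact z.2 ⟨x, h2⟩
    · rfl
    · change aeval g.y (X x.1 * pderiv x.1 (X z.1)) = Matrix.diagonal (fun i : Cc => g.y i.1) x z
      rw [hXd, Matrix.diagonal_apply]
      by_cases h2 : x = z
      · subst h2; simp
      · rw [if_neg (fun h3 => h2 (Subtype.ext h3)), if_neg h2]
  have hA1 : A1.det = (∏ b : J, π ^ m b) * (Matrix.of fun a b : J =>
      aeval g.y (X (σ a) * pderiv (σ a) (p b)) * π ^ (-m b)).det := by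
    rw [← Matrix.det_mul_row]
    congr 1
    ext a b
    simp only [Matrix.of_apply, A1]
    generalize aeval g.y (X (σ a) * pderiv (σ a) (p b)) = z
    rw [mul_comm, mul_assoc, ← zpow_add₀ hπ, neg_add_cancel, zpow_zero, mul_one]
  have hpi : (∏ b : J, π ^ m b) ≠ 0 := Finset.prod_ne_zero_iff.2 fun b _ => zpow_ne_zero _ hπ
  have hcv : (∏ i : Cc, g.y i.1) ≠ 0 := Finset.prod_ne_zero_iff.2 fun b _ => g.yne _
  have hA1ne : A1.det ≠ 0 := by rw [hA1]; exact mul_ne_zero hpi hd0
  have hA1ord : v.ord A1.det = ∑ b : J, m b := by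
    rw [hA1, v.map_mul _ _ hpi hd0, hd, add_zero, v.ord_prod _ _ fun b _ => zpow_ne_zero _ hπ]
    exact Finset.sum_congr rfl fun b _ => by rw [v.ord_zpow hπ, h1, mul_one]
  have hMdet : M.det = A1.det * ∏ i : Cc, g.y i.1 := by
    rw [hblock, Matrix.det_fromBlocks_zero₁₂, Matrix.det_diagonal]
  have hMne : M.det ≠ 0 := by rw [hMdet]; exact mul_ne_zero hA1ne hcv
  have hC : (Matrix.of fun a x : Fin (d + 1) =>
      aeval g.y (X a * pderiv a ((Fin.cons g.F q : Fin (d + 1) → _) x))) =
      M.submatrix ε.symm ε' := by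
    ext a x
    rw [hcons]
    simp [M]
  obtain ⟨hCo, hC0⟩ := ord_det_submatrix v M ε.symm ε'
  have hk : ∃ k, aeval g.y (X k * pderiv k g.F) ≠ 0 := by
    by_contra h2
    push Not at h2
    apply hMne
    rw [← hC0, ← hC]
    apply Matrix.det_eq_zero_of_column_eq_zero (0 : Fin (d + 1))
    intro a
    change aeval g.y (X a * pderiv a ((Fin.cons g.F q : Fin (d + 1) → _) 0)) = 0
    rw [Fin.cons_zero]
    exact h2 a
  have hT := detT g hk q
  rw [hC] at hT
  have hT2 : (Matrix.of fun j k : Fin g.X.d => g.X.T.D j (aeval g.y (q (g.e k)))).det =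
      (M.submatrix ε.symm ε').det := by
    rw [← hT, ← Matrix.det_submatrix_equiv_self g.e (Matrix.of fun j i : Fin d =>
      g.X.T.D (g.e.symm j) (aeval g.y (q i)))]
    congr 1
    ext j k
    simp
  have hT0 : (Matrix.of fun j k : Fin g.X.d => g.X.T.D j (aeval g.y (q (g.e k)))).det ≠ 0 := by
    rw [hT2, Ne, hC0]
    exact hMne
  have hqne : ∀ i, aeval g.y (q i) ≠ 0 := by
    intro i h2
    apply hT0
    apply Matrix.det_eq_zero_of_column_eq_zero (g.e.symm i)
    intro a
    rw [Matrix.of_apply, Equiv.apply_symm_apply, h2, map_zero]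
  have key := gji v g.X.T.D A hA0 hA (fun k => aeval g.y (q (g.e k))) (fun k => hqne _) hT0
  rw [hT2, hCo, hMdet, v.map_mul _ _ hA1ne hcv, hA1ord, v.ord_prod _ _ fun i _ => g.yne _] at key
  let o : J ⊕ Cc → ℤ := Sum.elim (fun x => if x = x0 then 0 else v.ord (aeval g.y (p x)))
    fun i => v.ord (g.y i.1)
  have ho : ∀ i : Fin d, v.ord (aeval g.y (q i)) = o (ε' i.succ) := by
    intro i
    have h2 := hε'ne i
    change v.ord (aeval g.y (H (ε' i.succ))) = _
    generalize ε' i.succ = z at h2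
    rcases z with x | z
    · have h3 : x ≠ x0 := fun h => h2 (by rw [h])
      change v.ord (aeval g.y (p x)) = if x = x0 then 0 else v.ord (aeval g.y (p x))
      rw [if_neg h3]
    · change v.ord (aeval g.y (X z.1)) = v.ord (g.y z.1)
      rw [aeval_X]
  have hsum : ∑ k, v.ord (aeval g.y (q (g.e k))) =
      ∑ x : J, (if x = x0 then 0 else v.ord (aeval g.y (p x))) + ∑ i : Cc, v.ord (g.y i.1) := by
    rw [g.e.sum_comp fun i => v.ord (aeval g.y (q i))]
    have h2 : ∑ x, o (ε' x) = ∑ z, o z := ε'.sum_comp o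
    rw [Fin.sum_univ_succ, Fintype.sum_sum_type, hε'0] at h2
    have h3 : o (Sum.inl x0) = 0 := if_pos rfl
    rw [h3, zero_add] at h2
    rw [Finset.sum_congr rfl fun i _ => ho i, h2]
    rfl
  rw [hsum] at key
  refine ⟨fun x hx => ?_, ?_⟩
  · have h2 : ∃ i : Fin d, ε' i.succ = Sum.inl x := by
      have h3 : ε'.symm (Sum.inl x) ≠ 0 := by
        intro h4
        apply hx
        have h5 := congrArg ε' h4
        rw [Equiv.apply_symm_apply, hε'0] at h5
        exact Sum.inl_injective h5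
      obtain ⟨i, hi⟩ := Fin.exists_succ_eq.2 h3
      exact ⟨i, by rw [hi, Equiv.apply_symm_apply]⟩
    obtain ⟨i, hi⟩ := h2
    have h3 := hqne i
    change aeval g.y (H (ε' i.succ)) ≠ 0 at h3
    rw [hi] at h3
    exact h3
  · have h10 : ∑ x, (if x = x0 then 0 else v.ord (aeval g.y (p x)) - m x) =
        ∑ x : J, (if x = x0 then 0 else v.ord (aeval g.y (p x))) - ∑ x, m x +
          phi (expo g.F) u := by
      have h11 : ∑ x, (if x = x0 then 0 else v.ord (aeval g.y (p x)) - m x) =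
          ∑ x, ((if x = x0 then 0 else v.ord (aeval g.y (p x))) - m x +
            (if x = x0 then m x else 0)) := by
        refine Finset.sum_congr rfl fun x _ => ?_
        by_cases h : x = x0
        · simp [h]
        · simp [h]
      rw [h11, Finset.sum_add_distrib, Finset.sum_sub_distrib]
      congr 1
      rw [Finset.sum_ite_eq' Finset.univ x0 m]
      simp only [Finset.mem_univ, if_true, hm, hx0]
    rw [h10]
    linarith

end Pool.Agent.K9h50.NH
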