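import Mathlib
import Pool.Agent.K9h50.NH.Exi

/-!
# Combinatorial inversion of adjunction
-/

set_option autoImplicit false
set_option linter.unusedSectionVars false

namespace Pool.Agent.K9h50.NH

open Pool.Agent.H436R3.Fol Pool.Agent.H436R3.KT Pool.Agent.W497.Mld MvPolynomial
open Pool.Agent.TH165.ACC (pr ex Prim Cn Hs lead part mldsR
  pr_add pr_zero pr_neg pr_sub pr_smul pr_smul_right ex_add ex_inj exists_prim)
open Pool.Agent.Helper43K9.NH

variable {d : ℕ} {L : Type} [Field L] [Algebra ℂ L] {g : HypGerm d L}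

/-- the closed point lies on the hypersurface -/
theorem exists_lt (g : HypGerm d L) {m : Fin (d + 1) → ℤ} (hm : m ∈ expo g.F) :
    ∃ m' ∈ expo g.F, ∃ i, pr m' (g.E i) < pr m (g.E i) := by
  classical
  by_contra hcon
  push Not at hcon
  obtain ⟨s0, hs0, rfl⟩ := mem_expo.1 hm
  have hC : ∀ s ∈ g.F.support, ex s - ex s0 ∈ Cn g.E := by
    intro s hs i
    rw [pr_sub]
    have := hcon (ex s) (mem_expo.2 ⟨s, hs, rfl⟩) i
    omega
  let a : {s // s ∈ g.F.support} → g.X.R := fun s => ⟨ch g.y (ex s.1 - ex s0), mem_R (hC s.1 s.2)⟩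
  have h1 : (∑ s : {s // s ∈ g.F.support}, g.F.coeff s.1 • a s : g.X.R) = 0 := by
    apply Subtype.ext
    have h2 : ((∑ s : {s // s ∈ g.F.support}, g.F.coeff s.1 • a s : g.X.R) : L) =
        aeval g.y g.F * ch g.y (-ex s0) := by
      rw [aeval_eq_sum, Finset.sum_mul, ← Finset.sum_coe_sort g.F.support fun s =>
        algebraMap ℂ L (g.F.coeff s) * ch g.y (ex s) * ch g.y (-ex s0),
        AddSubmonoidClass.coe_finsetSum]
      refine Finset.sum_congr rfl fun s _ => ?_
      rw [mul_assoc, ← ch_add g.yne, ← sub_eq_add_neg]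
      change g.F.coeff s.1 • ch g.y (ex s.1 - ex s0) = _
      rw [Algebra.smul_def]
    rw [h2, F_zero, zero_mul]
    rfl
  have h2 : ∀ s : {s // s ∈ g.F.support}, g.P (a s) = if s.1 = s0 then 1 else 0 := by
    intro s
    split_ifs with h
    · have h3 : a s = 1 := by
        apply Subtype.ext
        change ch g.y (ex s.1 - ex s0) = 1
        rw [h, sub_self, ch_zero]
      rw [h3, map_one]
    · exact g.hP _ _ (hC s.1 s.2) (fun h3 => h (ex_inj (sub_eq_zero.1 h3))) rfl
  have h3 := congrArg g.P h1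
  rw [map_sum, map_zero, Finset.sum_eq_single ⟨s0, hs0⟩] at h3
  · rw [map_smul, h2, if_pos rfl, smul_eq_mul, mul_one] at h3
    exact (mem_support_iff.1 hs0) h3
  · intro s _ hs
    rw [map_smul, h2, if_neg (fun h => hs (Subtype.ext h)), smul_zero]
  · intro h; exact absurd (Finset.mem_univ _) h

theorem exists_Q (g : HypGerm d L) {Q : Fin (d + 1) → ℤ} (hQ : ∀ j, 0 < pr Q (g.E j)) :
    Q ≠ 0 := by
  rintro rfl
  have h1 : ∀ j : Fin g.N, False := fun j => by
    have := hQ j
    rw [pr_zero] at this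
    exact lt_irrefl _ this
  have h2 := g.full (Pi.single 0 1) fun j => (h1 j).elim
  have h3 := congrFun h2 0
  simp at h3

theorem inn_pos {w : Fin (d + 1) → ℤ} (hw : Inn g.E w) {Q : Fin (d + 1) → ℤ}
    (hQ : ∀ j, 0 < pr Q (g.E j)) : 0 < pr Q w :=
  hw Q (fun j => (hQ j).le) (exists_Q g hQ)

theorem inn_ne {w : Fin (d + 1) → ℤ} (hw : Inn g.E w) : w ≠ 0 := by
  rintro rfl
  obtain ⟨Q, hQ⟩ := g.pointed
  have h1 := inn_pos hw hQ
  simp [pr] at h1

section ld

theorem phi_add {n : ℕ} {S : Finset (Fin n → ℤ)} (hS : S.Nonempty) (w w' : Fin n → ℤ) :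
    phi S w + phi S w' ≤ phi S (w + w') := by
  obtain ⟨⟨m, hm, h1⟩, -⟩ := phi_spec hS (w + w')
  have h2 := (phi_spec hS w).2 m hm
  have h3 := (phi_spec hS w').2 m hm
  rw [← h1, pr_add_right]
  omega

variable (b : Bdy g)

theorem G_ne (j : Fin b.s) : b.G j ≠ 0 := by
  intro h
  apply b.Gne j
  rw [h, map_zero]

theorem ld_smul {k : ℤ} (hk : 0 ≤ k) (w : Fin (d + 1) → ℤ) : ld b (k • w) = k * ld b w := by
  rw [ld, ld, dot_smul, phi_smul (expo_nonempty g.Fne) hk]
  have h1 : ∑ j, b.c j * (phi (expo (b.G j)) (k • w) : ℝ) =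
      k * ∑ j, b.c j * (phi (expo (b.G j)) w : ℝ) := by
    rw [Finset.mul_sum]
    refine Finset.sum_congr rfl fun j _ => ?_
    rw [phi_smul (expo_nonempty (G_ne b j)) hk]
    push_cast
    ring
  rw [h1]
  push_cast
  ring

theorem ld_add (w w' : Fin (d + 1) → ℤ) : ld b (w + w') ≤ ld b w + ld b w' := by
  have h1 : ((phi (expo g.F) w : ℤ) : ℝ) + (phi (expo g.F) w' : ℝ) ≤
      (phi (expo g.F) (w + w') : ℝ) := by
    exact_mod_cast phi_add (expo_nonempty g.Fne) w w'
  have h2 : ∑ j, b.c j * (phi (expo (b.G j)) w : ℝ) + ∑ j, b.c j * (phi (expo (b.G j)) w' : ℝ) ≤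
      ∑ j, b.c j * (phi (expo (b.G j)) (w + w') : ℝ) := by
    rw [← Finset.sum_add_distrib]
    refine Finset.sum_le_sum fun j _ => ?_
    rw [← mul_add]
    refine mul_le_mul_of_nonneg_left ?_ (b.c0 j)
    exact_mod_cast phi_add (expo_nonempty (G_ne b j)) w w'
  rw [ld, ld, ld, dot_add]
  linarith

theorem ld_E (i : Fin g.N) : ld b (g.E i) = 1 - b.β i := by
  rw [ld, b.eq i]
  ring

/-- adding a ray -/
theorem ld_ray {w : Fin (d + 1) → ℤ} {i : Fin g.N} {c : ℤ} (hc : 0 ≤ c)
    (h : phi (expo g.F) w + c * (phi (expo g.F) (g.E i) + 1) ≤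
      phi (expo g.F) (w + c • g.E i)) : ld b (w + c • g.E i) ≤ ld b w := by
  have h1 : ((phi (expo g.F) w : ℤ) : ℝ) + c * ((phi (expo g.F) (g.E i) : ℝ) + 1) ≤
      (phi (expo g.F) (w + c • g.E i) : ℝ) := by exact_mod_cast h
  have hcR : (0 : ℝ) ≤ c := by exact_mod_cast hc
  have h2 : ∑ j, b.c j * (phi (expo (b.G j)) w : ℝ) +
      c * ∑ j, b.c j * (phi (expo (b.G j)) (g.E i) : ℝ) ≤
      ∑ j, b.c j * (phi (expo (b.G j)) (w + c • g.E i) : ℝ) := by
    rw [Finset.mul_sum, ← Finset.sum_add_distrib]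
    refine Finset.sum_le_sum fun j _ => ?_
    have h3 := phi_add (expo_nonempty (G_ne b j)) w (c • g.E i)
    rw [phi_smul (expo_nonempty (G_ne b j)) hc] at h3
    have h4 : ((phi (expo (b.G j)) w : ℤ) : ℝ) + c * (phi (expo (b.G j)) (g.E i) : ℝ) ≤
        (phi (expo (b.G j)) (w + c • g.E i) : ℝ) := by exact_mod_cast h3
    have h5 := mul_le_mul_of_nonneg_left h4 (b.c0 j)
    linarith
  rw [ld, ld, dot_add, dot_smul, b.eq i]
  have h6 := mul_nonneg hcR (b.β0 i)
  linarith

end ld

/-- the log discrepancy function is positive on the tropical hypersurface -/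
theorem klt_trop {b : Bdy g} {ε : ℝ} {Q : Fin (d + 1) → ℤ}
    (hk : ∀ v, IsOverGerm g.P v → ∀ c : ℤ, IsCanOrd g.X.T v c →
      ε * (pr Q (wt g.y v) : ℝ) ≤ 1 + (c : ℝ) + dot b.ψ (wt g.y v) -
        ∑ j, b.c j * (v.ord (aeval g.y (b.G j)) : ℝ))
    {w : Fin (d + 1) → ℤ} (hw : Inn g.E w) (ht : Trop (expo g.F) w) :
    ε * (pr Q w : ℝ) ≤ ld b w := by
  obtain ⟨k, u, hk0, hu, rfl⟩ := exists_prim (inn_ne hw)
  have hui : Inn g.E u := Inn.of_smul hk0 hw
  have hut : Trop (expo g.F) u := by
    obtain ⟨m, hm, m', hm', hne, h1, h2⟩ := ht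
    rw [pr_smul_right, phi_smul (expo_nonempty g.Fne) hk0.le] at h1 h2
    exact ⟨m, hm, m', hm', hne, mul_left_cancel₀ hk0.ne' h1, mul_left_cancel₀ hk0.ne' h2⟩
  obtain ⟨v, hov, hwt, hcan, hG⟩ := exists_over hui hu hut
  have h1 := hk v hov _ hcan
  rw [hwt] at h1
  have h2 : ∑ j, b.c j * (v.ord (aeval g.y (b.G j)) : ℝ) =
      ∑ j, b.c j * (phi (expo (b.G j)) u : ℝ) :=
    Finset.sum_congr rfl fun j _ => by rw [hG]
  rw [h2] at h1
  have h3 : ε * (pr Q u : ℝ) ≤ ld b u := by
    rw [ld]
    push_cast at h1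
    linarith
  rw [ld_smul b hk0.le, pr_smul_right]
  have hkR : (0 : ℝ) < k := by exact_mod_cast hk0
  push_cast
  nlinarith

/-- **One step.** -/
theorem step {b' : Bdy g} {ε : ℝ} {Q : Fin (d + 1) → ℤ} (hε : 0 < ε)
    (hQ : ∀ i, 0 < pr Q (g.E i))
    (hk : ∀ w, Inn g.E w → Trop (expo g.F) w → ε * (pr Q w : ℝ) ≤ ld b' w)
    {w : Fin (d + 1) → ℤ} (hw : Inn g.E w) (hnt : ¬ Trop (expo g.F) w) :
    ∃ w2, Inn g.E w2 ∧ (∀ b : Bdy g, ld b w2 ≤ ld b w) ∧ pr Q w + 1 ≤ pr Q w2 ∧
      (Trop (expo g.F) w2 ∨ ε * (pr Q w : ℝ) ≤ ld b' w + 1) := by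
  classical
  set S := expo g.F with hS
  have hSne : S.Nonempty := expo_nonempty g.Fne
  obtain ⟨⟨m, hm, hmw⟩, hmin⟩ := phi_spec hSne w
  have huniq : ∀ m' ∈ S, m' ≠ m → phi S w + 1 ≤ pr m' w := by
    intro m' hm' hne
    have h1 := hmin m' hm'
    rcases h1.lt_or_eq with h2 | h2
    · omega
    · exact absurd ⟨m, hm, m', hm', hne.symm, hmw, h2.symm⟩ hnt
  obtain ⟨m1, hm1, i, hi⟩ := exists_lt g hm
  set f : ℤ := phi S (g.E i) with hf
  have hfle : ∀ m' ∈ S, f ≤ pr m' (g.E i) := (phi_spec hSne (g.E i)).2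
  let S' := S.filter fun m' => pr m' (g.E i) < pr m (g.E i)
  have hS'ne : S'.Nonempty := ⟨m1, Finset.mem_filter.2 ⟨hm1, hi⟩⟩
  let a : (Fin (d + 1) → ℤ) → ℤ := fun m' => pr m' w - pr m w
  let c : (Fin (d + 1) → ℤ) → ℤ := fun m' => pr m (g.E i) - pr m' (g.E i)
  obtain ⟨ms, hms, hmsmin⟩ := S'.exists_min_image (fun m' => (a m' : ℚ) / (c m' : ℚ)) hS'ne
  have hmem : ∀ m' ∈ S', m' ∈ S ∧ 0 < a m' ∧ 0 < c m' := by
    intro m' hm'
    obtain ⟨h1, h2⟩ := Finset.mem_filter.1 hm'
    have h3 : m' ≠ m := by rintro rfl; exact lt_irrefl _ h2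
    have h4 := huniq m' h1 h3
    refine ⟨h1, ?_, ?_⟩
    · simp only [a]; omega
    · simp only [c]; omega
  obtain ⟨hmsS, has, hcs⟩ := hmem ms hms
  -- comparison of the ratios
  have hratio : ∀ m' ∈ S', a ms * c m' ≤ a m' * c ms := by
    intro m' hm'
    obtain ⟨-, -, hc'⟩ := hmem m' hm'
    have h1 := hmsmin m' hm'
    have h2 : (0 : ℚ) < c ms := by exact_mod_cast hcs
    have h3 : (0 : ℚ) < c m' := by exact_mod_cast hc'
    rw [div_le_div_iff₀ h2 h3] at h1
    exact_mod_cast h1
  set A := a ms with hA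
  set C := c ms with hCdef
  let q : ℤ := (A + C - 1) / C
  have hq1 : A ≤ q * C := by
    have h1 := Int.emod_add_mul_ediv (A + C - 1) C
    have h2 := Int.emod_lt_of_pos (A + C - 1) hcs
    have h3 : C * ((A + C - 1) / C) = q * C := by simp only [q]; ring
    omega
  have hq2 : (q - 1) * C < A := by
    have h1 := Int.emod_add_mul_ediv (A + C - 1) C
    have h2 := Int.emod_nonneg (A + C - 1) hcs.ne'
    have h3 : C * ((A + C - 1) / C) = q * C := by simp only [q]; ring
    have h4 : (q - 1) * C = q * C - C := by ring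
    omega
  have hq0 : 1 ≤ q := by
    by_contra h
    push Not at h
    have h1 : q ≤ 0 := by omega
    have h2 : q * C ≤ 0 := mul_nonpos_of_nonpos_of_nonneg h1 hcs.le
    omega
  -- the order of `F` after adding a multiple of the ray
  have hphi : ∀ r : ℤ, 0 ≤ r → r ≤ q →
      phi S w + r * (f + 1) ≤ phi S (w + r • g.E i) := by
    intro r hr0 hrq
    obtain ⟨⟨m3, hm3, h3⟩, -⟩ := phi_spec hSne (w + r • g.E i)
    rw [← h3, pr_add_right, pr_smul_right]
    have h4 := hfle m3 hm3
    rcases h4.lt_or_eq with h5 | h5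
    · have h6 := hmin m3 hm3
      have h7 : r * (f + 1) ≤ r * pr m3 (g.E i) := mul_le_mul_of_nonneg_left (by omega) hr0
      omega
    · have h6 : m3 ∈ S' := Finset.mem_filter.2 ⟨hm3, by
        have := hfle m1 hm1
        omega⟩
      obtain ⟨-, ha3, hc3⟩ := hmem m3 h6
      have h7 := hratio m3 h6
      have h8 : q ≤ a m3 := by
        have h9 : (q - 1) * C * c m3 < A * c m3 := mul_lt_mul_of_pos_right hq2 hc3
        have h10 : ((q - 1) * c m3) * C < a m3 * C := by
          calc ((q - 1) * c m3) * C = (q - 1) * C * c m3 := by ring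
            _ < A * c m3 := h9
            _ ≤ a m3 * C := h7
        have h11 : (q - 1) * c m3 < a m3 := lt_of_mul_lt_mul_right h10 hcs.le
        have h12 : q - 1 ≤ (q - 1) * c m3 := by nlinarith
        omega
      have h9 : pr m3 w = pr m w + a m3 := by simp only [a]; ring
      rw [← h5, h9, hmw]
      nlinarith
  have hInn : ∀ r : ℤ, 0 ≤ r → Inn g.E (w + r • g.E i) := by
    intro r hr m' hm' h0
    rw [pr_add_right, pr_smul_right]
    have h1 := hw m' hm' h0
    have h2 := mul_nonneg hr (hm' i)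
    omega
  refine ⟨w + q • g.E i, hInn q (by omega), fun b => ld_ray b (by omega) (hphi q (by omega) le_rfl),
    ?_, ?_⟩
  · rw [pr_add_right, pr_smul_right]
    have := hQ i
    nlinarith
  · rcases hq1.lt_or_eq with hlt | heq
    · right
      -- the tie point
      have hz : Trop S (C • w + A • g.E i) := by
        have e1 : pr m (C • w + A • g.E i) = C * pr m w + A * pr m (g.E i) := by
          rw [pr_add_right, pr_smul_right, pr_smul_right]
        have e2 : pr ms (C • w + A • g.E i) = C * pr m w + A * pr m (g.E i) := by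
          rw [pr_add_right, pr_smul_right, pr_smul_right]
          have h1 : pr ms w = pr m w + A := by simp only [hA, a]; ring
          have h2 : pr ms (g.E i) = pr m (g.E i) - C := by simp only [hCdef, c]; ring
          rw [h1, h2]
          ring
        have e3 : phi S (C • w + A • g.E i) = C * pr m w + A * pr m (g.E i) := by
          apply phi_eq ⟨m, hm, e1⟩
          intro m3 hm3
          rw [pr_add_right, pr_smul_right, pr_smul_right]
          by_cases h4 : m3 ∈ S'
          · have h5 := hratio m3 h4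
            have h6 : pr m3 w = pr m w + a m3 := by simp only [a]; ring
            have h7 : pr m3 (g.E i) = pr m (g.E i) - c m3 := by simp only [c]; ring
            rw [h6, h7]
            nlinarith
          · have h5 : pr m (g.E i) ≤ pr m3 (g.E i) := by
              by_contra h6
              push Not at h6
              exact h4 (Finset.mem_filter.2 ⟨hm3, h6⟩)
            have h6 := hmin m3 hm3
            rw [← hmw] at h6
            have h7 : C * pr m w ≤ C * pr m3 w := mul_le_mul_of_nonneg_left h6 hcs.le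
            have h8 : A * pr m (g.E i) ≤ A * pr m3 (g.E i) := mul_le_mul_of_nonneg_left h5 has.le
            omega
        refine ⟨m, hm, ms, hmsS, ?_, e1.trans e3.symm, e2.trans e3.symm⟩
        rintro rfl
        have := (hmem m hms).2.2
        simp [c] at this
      have hzi : Inn g.E (C • w + A • g.E i) := by
        intro m' hm' h0
        rw [pr_add_right, pr_smul_right, pr_smul_right]
        have h1 := mul_pos hcs (hw m' hm' h0)
        have h2 := mul_nonneg has.le (hm' i)
        omega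
      have h1 := hk _ hzi hz
      set w1 := w + (q - 1) • g.E i with hw1
      set A1 : ℤ := A - (q - 1) * C with hA1
      have hz' : C • w + A • g.E i = C • w1 + A1 • g.E i := by
        funext l
        simp only [hw1, hA1, Pi.add_apply, Pi.smul_apply, smul_eq_mul]
        ring
      have h2 : ld b' (C • w + A • g.E i) ≤ C * ld b' w1 + A1 * (1 - b'.β i) := by
        rw [hz']
        refine (ld_add b' _ _).trans ?_
        rw [ld_smul b' hcs.le, ld_smul b' (by omega), ld_E]
      have h3 : ld b' w1 ≤ ld b' w := ld_ray b' (by omega) (hphi (q - 1) (by omega) (by omega))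
      have hCR : (0 : ℝ) < C := by exact_mod_cast hcs
      have hA1R : (0 : ℝ) < A1 := by
        have : 0 < A1 := by omega
        exact_mod_cast this
      have hA1C : (A1 : ℝ) ≤ C := by
        have : A1 ≤ C := by
          have : (q - 1) * C = q * C - C := by ring
          omega
        exact_mod_cast this
      have h4 : (C : ℝ) * (pr Q w : ℝ) ≤ (pr Q (C • w + A • g.E i) : ℝ) := by
        have : C * pr Q w ≤ pr Q (C • w + A • g.E i) := by
          rw [pr_add_right, pr_smul_right, pr_smul_right]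
          have := mul_pos has (hQ i)
          omega
        exact_mod_cast this
      have h5 : ε * ((C : ℝ) * (pr Q w : ℝ)) ≤ C * ld b' w + C := by
        have e1 := mul_le_mul_of_nonneg_left h4 hε.le
        have e2 := mul_le_mul_of_nonneg_left h3 hCR.le
        have e3 : (A1 : ℝ) * (1 - b'.β i) ≤ C := by
          have := mul_nonneg hA1R.le (b'.β0 i)
          linarith
        linarith
      have h6 : (C : ℝ) * (ε * (pr Q w : ℝ)) ≤ C * (ld b' w + 1) := by linarith
      exact le_of_mul_le_mul_left h6 hCR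
    · left
      have e1 : pr m (w + q • g.E i) = pr m w + q * pr m (g.E i) := by
        rw [pr_add_right, pr_smul_right]
      have e2 : pr ms (w + q • g.E i) = pr m w + q * pr m (g.E i) := by
        rw [pr_add_right, pr_smul_right]
        have h1 : pr ms w = pr m w + A := by simp only [hA, a]; ring
        have h2 : pr ms (g.E i) = pr m (g.E i) - C := by simp only [hCdef, c]; ring
        rw [h1, h2, heq]
        ring
      have e3 : phi S (w + q • g.E i) = pr m w + q * pr m (g.E i) := by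
        apply phi_eq ⟨m, hm, e1⟩
        intro m3 hm3
        rw [pr_add_right, pr_smul_right]
        by_cases h4 : m3 ∈ S'
        · have h5 := hratio m3 h4
          have h6 : pr m3 w = pr m w + a m3 := by simp only [a]; ring
          have h7 : pr m3 (g.E i) = pr m (g.E i) - c m3 := by simp only [c]; ring
          have h8 : q * c m3 ≤ a m3 := by
            rw [heq] at h5
            have : (q * c m3) * C ≤ a m3 * C := by linarith
            exact le_of_mul_le_mul_right this hcs
          rw [h6, h7]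
          linarith
        · have h5 : pr m (g.E i) ≤ pr m3 (g.E i) := by
            by_contra h6
            push Not at h6
            exact h4 (Finset.mem_filter.2 ⟨hm3, h6⟩)
          have h6 := hmin m3 hm3
          rw [← hmw] at h6
          have h8 : q * pr m (g.E i) ≤ q * pr m3 (g.E i) :=
            mul_le_mul_of_nonneg_left h5 (by omega)
          omega
      refine ⟨m, hm, ms, hmsS, ?_, e1.trans e3.symm, e2.trans e3.symm⟩
      rintro rfl
      have := (hmem m hms).2.2
      simp [c] at this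

/-- **Combinatorial inversion of adjunction.** -/
theorem walk (hg : KltTy g) {w : Fin (d + 1) → ℤ} (hw : Inn g.E w) :
    ∃ w', Inn g.E w' ∧ Trop (expo g.F) w' ∧ ∀ b : Bdy g, ld b w' ≤ ld b w := by
  obtain ⟨b', ε, Q, hε, hQ, hk⟩ := hg
  have hk' := fun w (hw : Inn g.E w) ht => klt_trop hk hw ht
  set K0 : ℝ := ld b' w with hK0
  set C : ℤ := ⌊(K0 + 1) / ε⌋ with hC
  have key : ∀ (N : ℕ) (w1 : Fin (d + 1) → ℤ), Inn g.E w1 → ld b' w1 ≤ K0 →
      C + 1 - pr Q w1 ≤ N → ∃ w', Inn g.E w' ∧ Trop (expo g.F) w' ∧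
        ∀ b : Bdy g, ld b w' ≤ ld b w1 := by
    intro N
    induction N with
    | zero =>
      intro w1 hw1 hl hN
      by_cases ht : Trop (expo g.F) w1
      · exact ⟨w1, hw1, ht, fun b => le_rfl⟩
      obtain ⟨w2, hw2, hle, hQ2, h⟩ := step hε hQ hk' hw1 ht
      rcases h with h | h
      · exact ⟨w2, hw2, h, hle⟩
      · exfalso
        have h1 : (pr Q w1 : ℝ) ≤ (K0 + 1) / ε := by
          rw [le_div_iff₀ hε]
          linarith
        have h2 : pr Q w1 ≤ C := Int.le_floor.2 h1
        push_cast at hN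
        omega
    | succ N ih =>
      intro w1 hw1 hl hN
      by_cases ht : Trop (expo g.F) w1
      · exact ⟨w1, hw1, ht, fun b => le_rfl⟩
      obtain ⟨w2, hw2, hle, hQ2, -⟩ := step hε hQ hk' hw1 ht
      obtain ⟨w', h1, h2, h3⟩ := ih w2 hw2 ((hle b').trans hl) (by push_cast at hN ⊢; omega)
      exact ⟨w', h1, h2, fun b => (h3 b).trans (hle b)⟩
  exact key (C + 1 - pr Q w).toNat w hw le_rfl (Int.self_le_toNat _)

end Pool.Agent.K9h50.NH
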