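import Mathlib
import Pool.Agent.K9h50.NH.Walk

/-!
# Minimal log discrepancies of nondegenerate hypersurfaces are combinatorial
-/

set_option autoImplicit false
set_option linter.unusedSectionVars false

namespace Pool.Agent.K9h50.NH

open Pool.Agent.H436R3.Fol Pool.Agent.H436R3.KT Pool.Agent.W497.Mld MvPolynomial
open Pool.Agent.TH165.ACC (pr ex Prim Cn Hs lead part mldsR
  pr_add pr_zero pr_neg pr_sub pr_smul pr_smul_right ex_add ex_inj exists_prim ordAlong logDisc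
  Coord coord_pr GE GE_finite coord_of_mem exists_simplex DualVec ordAlong_single
  ordAlong_of_zero IsACC acc acc_union DualVec.le)
open Pool.Agent.Helper43K9.NH

variable {d : ℕ} {L : Type} [Field L] [Algebra ℂ L] {g : HypGerm d L}

section geo

variable {b : Bdy g} {B : EffDiv g.X} {e : LocEq B g.P}

/-- the lower bound for log discrepancies -/
theorem ld_le (hres : IsRes b e) {v : DVal L} (hov : IsOverGerm g.P v) {a : ℝ}
    (ha : IsLogDisc e v a) : ld b (wt g.y v) ≤ a := by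
  obtain ⟨N, hN, rfl⟩ := ha
  obtain ⟨A, hA0, hA, hAN⟩ := hN.1
  have h1 := jac b.G b.Gne v (b.nondeg _ (inn_of_over hov)) A hA0 hA
  rw [hAN] at h1
  rw [hres v, ld]
  have h2 : (∑ j, ((v.ord (aeval g.y (b.G j)) : ℝ) - (phi (expo (b.G j)) (wt g.y v) : ℝ))) ≤
      (N : ℝ) + 1 + (phi (expo g.F) (wt g.y v) : ℝ) := by exact_mod_cast h1
  have h3 : ∑ j, b.c j * ((v.ord (aeval g.y (b.G j)) : ℝ) -
      (phi (expo (b.G j)) (wt g.y v) : ℝ)) ≤
      ∑ j, ((v.ord (aeval g.y (b.G j)) : ℝ) - (phi (expo (b.G j)) (wt g.y v) : ℝ)) := by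
    refine Finset.sum_le_sum fun j _ => ?_
    have h4 : (phi (expo (b.G j)) (wt g.y v) : ℝ) ≤ (v.ord (aeval g.y (b.G j)) : ℝ) := by
      exact_mod_cast ge_of_phi g.yne (b.Gne j)
    have h5 := b.c1 j
    nlinarith
  simp only [mul_sub, Finset.sum_sub_distrib] at h3
  simp only [Finset.sum_sub_distrib] at h2 h3
  linarith

theorem exists_ld (hres : IsRes b e) {w : Fin (d + 1) → ℤ} (hw : Inn g.E w) (hprim : Prim w)
    (ht : Trop (expo g.F) w) : ∃ v, IsOverGerm g.P v ∧ IsLogDisc e v (ld b w) := by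
  obtain ⟨v, hov, hwt, hcan, hG⟩ := exists_over hw hprim ht
  refine ⟨v, hov, _, hcan, ?_⟩
  rw [hres v, hwt, ld]
  have h2 : ∑ j, b.c j * (v.ord (aeval g.y (b.G j)) : ℝ) =
      ∑ j, b.c j * (phi (expo (b.G j)) w : ℝ) :=
    Finset.sum_congr rfl fun j _ => by rw [hG]
  rw [h2]
  push_cast
  ring

theorem min_ld (hres : IsRes b e) (hk : KltTy g) {m : ℝ} (hm0 : 0 ≤ m)
    (hm : Pool.Agent.W497.Mld.IsMld e m) :
    (∃ w0, Inn g.E w0 ∧ ld b w0 = m) ∧ ∀ w, Inn g.E w → m ≤ ld b w := by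
  have h2 : ∀ w, Inn g.E w → m ≤ ld b w := by
    intro w hw
    obtain ⟨w', hw', ht, hle⟩ := walk hk hw
    refine le_trans ?_ (hle b)
    obtain ⟨k, u, hk0, hu, rfl⟩ := exists_prim (inn_ne hw')
    have hui : Inn g.E u := Inn.of_smul hk0 hw'
    have hut : Trop (expo g.F) u := by
      obtain ⟨m, hm, m', hm', hne, h1, h2⟩ := ht
      rw [pr_smul_right, phi_smul (expo_nonempty g.Fne) hk0.le] at h1 h2
      exact ⟨m, hm, m', hm', hne, mul_left_cancel₀ hk0.ne' h1, mul_left_cancel₀ hk0.ne' h2⟩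
    have h3 : m ≤ ld b u := by
      obtain ⟨v, hov, hl⟩ := exists_ld hres hui hu hut
      exact hm.2 ⟨v, hov, hl⟩
    rw [ld_smul b hk0.le]
    have hkR : (1 : ℝ) ≤ k := by exact_mod_cast hk0
    nlinarith
  obtain ⟨⟨v, hov, hl⟩, -⟩ := hm
  exact ⟨⟨wt g.y v, inn_of_over hov, le_antisymm (ld_le hres hov hl) (h2 _ (inn_of_over hov))⟩, h2⟩

end geo

section comb

variable {n d' : ℕ}

/-- the monomials of `H` in the coordinates of the simplicial cone -/
def SH (A : Fin d' → Fin n → ℤ) (H : MvPolynomial (Fin n) ℂ) : Set (Fin d' → ℕ) :=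
  {m | ∃ s ∈ H.support, ∀ i, (m i : ℤ) = pr (ex s) (A i) - phi (expo H) (A i)}

theorem SH_mem {A : Fin d' → Fin n → ℤ} {H : MvPolynomial (Fin n) ℂ} (hH : H ≠ 0)
    {s : Fin n →₀ ℕ} (hs : s ∈ H.support) :
    ∃ m ∈ SH A H, ∀ i, (m i : ℤ) = pr (ex s) (A i) - phi (expo H) (A i) := by
  have h : ∀ i, (((pr (ex s) (A i) - phi (expo H) (A i)).toNat : ℕ) : ℤ) =
      pr (ex s) (A i) - phi (expo H) (A i) := by
    intro i
    have := (phi_expo hH (A i)).2 s hs
    omega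
  exact ⟨fun i => (pr (ex s) (A i) - phi (expo H) (A i)).toNat, ⟨s, hs, h⟩, h⟩

theorem SH_nonempty {A : Fin d' → Fin n → ℤ} {H : MvPolynomial (Fin n) ℂ} (hH : H ≠ 0) :
    (SH A H).Nonempty := by
  obtain ⟨s, hs⟩ : H.support.Nonempty := by
    rwa [Finset.nonempty_iff_ne_empty, Ne, support_eq_empty]
  obtain ⟨m, hm, -⟩ := SH_mem (A := A) hH hs
  exact ⟨m, hm⟩

theorem ordAlong_SH {A : Fin d' → Fin n → ℤ} {H : MvPolynomial (Fin n) ℂ} (hH : H ≠ 0)
    {w : Fin d' → ℝ} {u : Fin n → ℤ} (hc : Coord A w u) :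
    ordAlong (SH A H) w = (phi (expo H) u : ℝ) - ∑ i, w i * (phi (expo H) (A i) : ℝ) := by
  have key : ∀ (m : Fin d' → ℕ) (s : Fin n →₀ ℕ),
      (∀ i, (m i : ℤ) = pr (ex s) (A i) - phi (expo H) (A i)) →
      ∑ i, (m i : ℝ) * w i = (pr (ex s) u : ℝ) - ∑ i, w i * (phi (expo H) (A i) : ℝ) := by
    intro m s h
    rw [coord_pr hc, ← Finset.sum_sub_distrib]
    refine Finset.sum_congr rfl fun i _ => ?_
    have h1 : (m i : ℝ) = (pr (ex s) (A i) : ℝ) - (phi (expo H) (A i) : ℝ) := by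
      exact_mod_cast h i
    rw [h1]
    ring
  apply IsLeast.csInf_eq
  constructor
  · obtain ⟨⟨s, hs, h1⟩, -⟩ := phi_expo hH u
    obtain ⟨m, hm, h2⟩ := SH_mem (A := A) hH hs
    refine ⟨m, hm, ?_⟩
    change ∑ i, (m i : ℝ) * w i = _
    rw [key m s h2, h1]
  · rintro _ ⟨m, ⟨s, hs, h2⟩, rfl⟩
    change _ ≤ ∑ i, (m i : ℝ) * w i
    rw [key m s h2]
    have h3 : (phi (expo H) u : ℝ) ≤ (pr (ex s) u : ℝ) := by
      exact_mod_cast (phi_expo hH u).2 s hs
    linarith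

theorem dot_coord {A : Fin d' → Fin n → ℤ} {w : Fin d' → ℝ} {u : Fin n → ℤ} (hc : Coord A w u)
    (ψ : Fin n → ℝ) : dot ψ u = ∑ i, w i * dot ψ (A i) := by
  simp only [dot, Finset.mul_sum]
  rw [Finset.sum_comm]
  refine Finset.sum_congr rfl fun k _ => ?_
  rw [← hc k, Finset.mul_sum]
  exact Finset.sum_congr rfl fun i _ => by ring

/-- the coefficients of the system -/
noncomputable def cc (b : Bdy g) : Option (Fin b.s) → ℝ
  | none => 1
  | some j => b.c j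

theorem cc0 (b : Bdy g) (x : Option (Fin b.s)) : 0 ≤ cc b x := by
  cases x with
  | none => exact zero_le_one
  | some j => exact b.c0 j

theorem sys_ne (b : Bdy g) (x : Option (Fin b.s)) : sys g.F b.G x ≠ 0 := by
  cases x with
  | none => exact g.Fne
  | some j => exact G_ne b j

theorem ld_sys (b : Bdy g) (w : Fin (d + 1) → ℤ) :
    ld b w = dot b.ψ w - ∑ x, cc b x * (phi (expo (sys g.F b.G x)) w : ℝ) := by
  rw [ld, Fintype.sum_option]
  change _ = dot b.ψ w - (1 * (phi (expo g.F) w : ℝ) + ∑ j, b.c j * (phi (expo (b.G j)) w : ℝ))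
  ring

theorem dot_E (b : Bdy g) (i : Fin g.N) : dot b.ψ (g.E i) = 1 - b.β i +
    ∑ x, cc b x * (phi (expo (sys g.F b.G x)) (g.E i) : ℝ) := by
  rw [b.eq i, Fintype.sum_option]
  change _ = 1 - b.β i + (1 * (phi (expo g.F) (g.E i) : ℝ) +
    ∑ j, b.c j * (phi (expo (b.G j)) (g.E i) : ℝ))
  ring

/-- the log discrepancy function in the coordinates of a simplicial cone -/
theorem ld_formula (b : Bdy g) {Γ : Set ℝ} (hβ : ∀ i, b.β i ≠ 0 → b.β i ∈ Γ)
    (hc : ∀ j, b.c j ≠ 0 → b.c j ∈ Γ) (a : Fin d' → Fin g.N) :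
    ∃ (r : ℕ) (S : Fin r → Set (Fin d' → ℕ)) (c : Fin r → ℝ),
      (∀ j, (S j).Nonempty ∧ 0 ∉ S j ∧ c j ∈ insert 1 Γ ∧ 0 < c j) ∧
      ∀ (w : Fin d' → ℝ) (u : Fin (d + 1) → ℤ), (∀ i, 0 ≤ w i) →
        Coord (fun i => g.E (a i)) w u → logDisc S c w = ld b u := by
  classical
  let A : Fin d' → Fin (d + 1) → ℤ := fun i => g.E (a i)
  let H : Option (Fin b.s) → MvPolynomial (Fin (d + 1)) ℂ := sys g.F b.G
  let I' : Finset (Fin d') := Finset.univ.filter fun i => b.β (a i) ≠ 0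
  let F' : Finset (Option (Fin b.s)) :=
    Finset.univ.filter fun x => cc b x ≠ 0 ∧ (0 : Fin d' → ℕ) ∉ SH A (H x)
  let Si : {i // i ∈ I'} ⊕ {x // x ∈ F'} → Set (Fin d' → ℕ) :=
    Sum.elim (fun i => {(Pi.single i.1 1 : Fin d' → ℕ)}) fun x => SH A (H x.1)
  let ci : {i // i ∈ I'} ⊕ {x // x ∈ F'} → ℝ := Sum.elim (fun i => b.β (a i.1)) fun x => cc b x.1
  let φ : Fin (Fintype.card ({i // i ∈ I'} ⊕ {x // x ∈ F'})) ≃ {i // i ∈ I'} ⊕ {x // x ∈ F'} :=
    (Fintype.equivFin _).symm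
  refine ⟨_, fun j => Si (φ j), fun j => ci (φ j), ?_, ?_⟩
  · intro j
    change (Si (φ j)).Nonempty ∧ 0 ∉ Si (φ j) ∧ ci (φ j) ∈ insert 1 Γ ∧ 0 < ci (φ j)
    generalize φ j = z
    rcases z with ⟨i, hi⟩ | ⟨x, hx⟩
    · have hi' : b.β (a i) ≠ 0 := (Finset.mem_filter.1 hi).2
      refine ⟨⟨_, rfl⟩, ?_, ?_, ?_⟩
      · intro h
        have h3 := congrFun (Set.mem_singleton_iff.1 h) i
        simp at h3
      · exact Set.mem_insert_of_mem _ (hβ _ hi')
      · exact lt_of_le_of_ne (b.β0 _) (Ne.symm hi')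
    · obtain ⟨-, hx1, hx2⟩ := Finset.mem_filter.1 hx
      refine ⟨SH_nonempty (sys_ne b x), hx2, ?_, lt_of_le_of_ne (cc0 b x) (Ne.symm hx1)⟩
      cases x with
      | none => exact Set.mem_insert _ _
      | some j => exact Set.mem_insert_of_mem _ (hc j hx1)
  · intro w u hw hco
    have e1 : ∑ j, ci (φ j) * ordAlong (Si (φ j)) w = ∑ i, b.β (a i) * w i +
        ∑ x, cc b x * ((phi (expo (H x)) u : ℝ) - ∑ i, w i * (phi (expo (H x)) (A i) : ℝ)) := by
      rw [φ.sum_comp fun x => ci x * ordAlong (Si x) w, Fintype.sum_sum_type]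
      congr 1
      · have h3 : ∑ i : {i // i ∈ I'}, ci (Sum.inl i) * ordAlong (Si (Sum.inl i)) w =
            ∑ i : {i // i ∈ I'}, b.β (a i.1) * w i.1 :=
          Finset.sum_congr rfl fun i _ => by
            change b.β (a i.1) * ordAlong {(Pi.single i.1 1 : Fin d' → ℕ)} w = _
            rw [ordAlong_single]
        rw [h3, Finset.sum_coe_sort I' fun i => b.β (a i) * w i]
        refine Finset.sum_filter_of_ne fun i _ h4 h5 => h4 ?_
        rw [h5, zero_mul]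
      · have h3 : ∑ x : {x // x ∈ F'}, ci (Sum.inr x) * ordAlong (Si (Sum.inr x)) w =
            ∑ x : {x // x ∈ F'}, cc b x.1 * ((phi (expo (H x.1)) u : ℝ) -
              ∑ i, w i * (phi (expo (H x.1)) (A i) : ℝ)) :=
          Finset.sum_congr rfl fun x _ => by
            change cc b x.1 * ordAlong (SH A (H x.1)) w = _
            rw [ordAlong_SH (sys_ne b x.1) hco]
        rw [h3, Finset.sum_coe_sort F' fun x => cc b x * ((phi (expo (H x)) u : ℝ) -
              ∑ i, w i * (phi (expo (H x)) (A i) : ℝ)), Finset.sum_filter]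
        refine Finset.sum_congr rfl fun x _ => ?_
        by_cases h5 : cc b x = 0
        · simp [h5]
        · by_cases h6 : (0 : Fin d' → ℕ) ∈ SH A (H x)
          · rw [if_neg (fun h => h.2 h6), ← ordAlong_SH (sys_ne b x) hco, ordAlong_of_zero h6 hw,
              mul_zero]
          · rw [if_pos ⟨h5, h6⟩]
    rw [logDisc, e1, ld_sys, dot_coord hco]
    have e2 : ∑ i, w i * dot b.ψ (g.E (a i)) = ∑ i, w i - ∑ i, b.β (a i) * w i +
        ∑ x, cc b x * ∑ i, w i * (phi (expo (H x)) (A i) : ℝ) := by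
      have e3 : ∑ x, cc b x * ∑ i, w i * (phi (expo (H x)) (A i) : ℝ) =
          ∑ i, w i * ∑ x, cc b x * (phi (expo (H x)) (A i) : ℝ) := by
        simp only [Finset.mul_sum]
        rw [Finset.sum_comm]
        exact Finset.sum_congr rfl fun i _ => Finset.sum_congr rfl fun x _ => by ring
      rw [e3, ← Finset.sum_sub_distrib, ← Finset.sum_add_distrib]
      refine Finset.sum_congr rfl fun i _ => ?_
      rw [dot_E]
      change _ = w i - b.β (a i) * w i + w i * ∑ x, cc b x * (phi (expo (H x)) (g.E (a i)) : ℝ)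
      ring
    rw [e2]
    simp only [mul_sub, Finset.sum_sub_distrib]
    change _ = _ - ∑ x, cc b x * (phi (expo (H x)) u : ℝ)
    ring

/-- the relative interior of a subcone which meets the interior of the cone lies in the interior -/
theorem inn_of_coord {a : Fin d' → Fin g.N} {w w0 : Fin d' → ℝ} {u u0 : Fin (d + 1) → ℤ}
    (h0 : Coord (fun i => g.E (a i)) w0 u0) (hu0 : Inn g.E u0)
    (h : Coord (fun i => g.E (a i)) w u) (hw : ∀ i, 0 < w i) : Inn g.E u := by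
  intro m hm hm0
  have h1 : (0 : ℝ) < pr m u := by
    rw [coord_pr h]
    obtain ⟨i, hi⟩ : ∃ i, pr m (g.E (a i)) ≠ 0 := by
      by_contra h2
      push Not at h2
      have h3 := hu0 m hm hm0
      have h4 : (pr m u0 : ℝ) = 0 := by
        rw [coord_pr h0]
        exact Finset.sum_eq_zero fun i _ => by rw [h2 i, Int.cast_zero, mul_zero]
      have h5 : pr m u0 = 0 := by exact_mod_cast h4
      omega
    refine Finset.sum_pos' (fun j _ => mul_nonneg (hw j).le (by exact_mod_cast hm (a j)))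
      ⟨i, Finset.mem_univ i, mul_pos (hw i) ?_⟩
    have := hm (a i)
    exact_mod_cast lt_of_le_of_ne this (Ne.symm hi)
  exact_mod_cast h1

end comb

/-- The minimal log discrepancies are values of the combinatorial ones. -/
theorem mld_mem {b : Bdy g} {B : EffDiv g.X} {e : LocEq B g.P} (hres : IsRes b e) (hk : KltTy g)
    {Γ : Set ℝ} (hβ : ∀ i, b.β i ≠ 0 → b.β i ∈ Γ) (hc : ∀ j, b.c j ≠ 0 → b.c j ∈ Γ)
    {m : ℝ} (hm0 : 0 ≤ m) (hm : Pool.Agent.W497.Mld.IsMld e m) :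
    ∃ d' ≤ d + 1, ∃ r, m ∈ mldsR d' r (insert 1 Γ) := by
  obtain ⟨⟨u0, hu0, hld⟩, hmin⟩ := min_ld hres hk hm0 hm
  obtain ⟨d', a, w0, hw0, hc0, D, hD⟩ := exists_simplex fun m hm => inn_cone hu0 hm
  obtain ⟨r, S, c, hS, hkey⟩ := ld_formula b hβ hc a
  refine ⟨d', hD.le, r, GE (fun i => g.E (a i)), S, c, GE_finite hD, hS, IsLeast.isGLB ⟨?_, ?_⟩⟩
  · refine ⟨w0, hw0, ⟨w0, _, rfl, hc0⟩, ?_⟩
    rw [hkey w0 u0 (fun i => (hw0 i).le) hc0, hld]
  · rintro _ ⟨w, hw, hwG, rfl⟩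
    obtain ⟨u, hu⟩ := coord_of_mem hwG
    rw [hkey w u (fun i => (hw i).le) hu]
    exact hmin u (inn_of_coord hc0 hu0 hu hw)

theorem dcc_insert {Γ : Set ℝ} (h : Pool.Agent.TH165.ACC.IsDCC Γ) :
    Pool.Agent.TH165.ACC.IsDCC (insert 1 Γ) := by
  have h1 : (insert (1 : ℝ) Γ).IsWF := by
    rw [Set.insert_eq]
    exact (Set.finite_singleton _).isWF.union h.isWF
  intro f hf hmem
  by_contra hcon
  push Not at hcon
  choose φ hφ hφ' using hcon
  let θ : ℕ → ℕ := fun k => Nat.rec 0 (fun _ x => φ x) k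
  have hθ : StrictAnti (f ∘ θ) := strictAnti_nat_of_succ_lt fun k =>
    lt_of_le_of_ne (hf (hφ (θ k))) (hφ' (θ k))
  exact (Set.isWF_iff_no_descending_seq.1 h1) (f ∘ θ) hθ fun k => hmem _

/-- **ACC** for nondegenerate hypersurfaces -/
theorem hyp_acc (d : ℕ) {Γ : Set ℝ} (hΓ : Pool.Agent.TH165.ACC.IsDCC Γ) :
    IsACC (hypMlds d Γ) := by
  intro u hu hmem
  refine acc_union (N := d + 1) (S := fun d' => {a | ∃ r, a ∈ mldsR d' r (insert 1 Γ)})
    (fun d' _ => acc (dcc_insert hΓ)) u hu fun k => ?_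
  obtain ⟨h0, L, _, _, g, b, B, e, -, hk, hres, hβ, hc, hm⟩ := hmem k
  exact mld_mem hres hk hβ hc h0 hm

end Pool.Agent.K9h50.NH
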