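import Mathlib
import Pool.Agent.K9h50.NH.Comb
import Pool.Agent.Helper58K9.ET.Asm
import Pool.Agent.Helper58K9.ET.Dens
import Pool.Agent.Helper58K9.ET.Down
import Pool.Agent.Helper58K9.ET.Up
import Pool.Agent.Helper58K9.ET.Extd
import Pool.Agent.Helper58K9.ET.Appr
import Pool.Agent.Helper58K9.ET.Chg
import Pool.Agent.Helper58K9.ET.Refl

/-!
# Pairs which are étale locally nondegenerate hypersurfaces
-/

set_option autoImplicit false
set_option linter.unusedSectionVars false

namespace Pool.Agent.K9h50.NH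

open Pool.Agent.H436R3.Fol Pool.Agent.H436R3.KT Pool.Agent.W497.Mld
open Pool.Agent.Helper43K9.NH
open Pool.Agent.Helper58K9.ET (Etale OverPt Ext ordE up down dens frac extd appr chg disc idEtale
  idEtale_im S_UP S_DOWN S_DENS S_EXTD S_APPR)

variable {K M : Type} [Field K] [Algebra ℂ K] [Field M] [Algebra ℂ M]

/-- The germs of pairs `(X ∋ x, B)` and `(Y ∋ P, B')`, with the local equations `e` and `e'` of
`K_X + B` and `K_Y + B'`, are étale locally isomorphic: there is a variety `U = Spec S` with étale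
morphisms `U → X` and `U → Y` and a closed point `y` of `U` over `x` and `P`, such that the
pull-backs of `K_X + B` and `K_Y + B'` to `U` agree at `y`: they have the same difference with the
canonical divisor at all prime divisors over `U` with centre `y`. -/
def CommonAt {X : AffVar K} {B : EffDiv X} {x : Pt X} (e : LocEq B x)
    {Y : AffVar M} {B' : EffDiv Y} {P : Pt Y} (e' : LocEq B' P) : Prop :=
  ∃ (L : Type) (_ : Field L) (_ : Algebra ℂ L) (_ : Algebra K L) (_ : IsScalarTower ℂ K L)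
    (_ : Algebra M L) (_ : IsScalarTower ℂ M L) (S : Subalgebra ℂ L) (h : Etale X S)
    (h' : Etale Y S) (T : Foliation L X.d) (T' : Foliation L Y.d) (y : S →ₐ[ℂ] ℂ),
    Ext X T ∧ Ext Y T' ∧ h.im y = x ∧ h'.im y = P ∧
    ∀ w, OverPt S y w → ∀ n n' : ℤ, IsCanOrd T w n → IsCanOrd T' w n' →
      (n : ℝ) - ordE e w = (n' : ℝ) - ordE e' w

/-- the log discrepancies agree -/
theorem log_eq_at {X : AffVar K} {B : EffDiv X} {x : Pt X} {e : LocEq B x}
    {Y : AffVar M} {B' : EffDiv Y} {P : Pt Y} {e' : LocEq B' P} (h : CommonAt e e') (a : ℝ) :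
    (∃ v, IsOverGerm x v ∧ IsLogDisc e v a) ↔ ∃ v, IsOverGerm P v ∧ IsLogDisc e' v a := by
  obtain ⟨L, _, _, _, _, _, _, S, h, h', T, T', y, hT, hT', rfl, rfl, hag⟩ := h
  have hU : S_UP := up
  have hW : S_DOWN := down dens frac
  have hD : S_DENS := dens
  have hE : S_EXTD := extd frac
  have hA : S_APPR := appr
  rw [disc hU hW hD hE hA h y T hT e a, disc hU hW hD hE hA h' y T' hT' e' a]
  constructor
  · rintro ⟨w, hw, n, hn, ha⟩
    obtain ⟨n', hn'⟩ := chg T T' hT.top hT'.top w n hn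
    refine ⟨w, hw, n', hn', ?_⟩
    have := hag w hw n n' hn hn'
    rw [ha]
    linarith
  · rintro ⟨w, hw, n', hn', ha⟩
    obtain ⟨n, hn⟩ := chg T' T hT'.top hT.top w n' hn'
    refine ⟨w, hw, n, hn, ?_⟩
    have := hag w hw n n' hn hn'
    rw [ha]
    linarith

theorem common_at_refl {X : AffVar K} {B : EffDiv X} {x : Pt X} (e : LocEq B x) :
    CommonAt e e := by
  refine ⟨K, inferInstance, inferInstance, Algebra.id K, inferInstance, Algebra.id K,
    inferInstance, X.R, idEtale X, idEtale X, X.T, X.T, x, ⟨X.top, fun _ _ => rfl⟩,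
    ⟨X.top, fun _ _ => rfl⟩, idEtale_im X x, idEtale_im X x, ?_⟩
  intro w _ n n' hn hn'
  rw [hn.unique hn']

/-- The minimal log discrepancies `m ≥ 0` of the pairs `(X ∋ x, B)`, `X` a normal affine variety and
`x` a closed point, which are étale locally isomorphic to the germ at the fixed point `P` of a pair
`(Y, B')` as follows: `Y` is a nondegenerate hypersurface of dimension `d` in an affine toric
variety `Z`, of klt type, and `K_Y + B' = (K_Z + Y + B_Z)|_Y` for a nondegenerate boundary `B_Z` on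
`Z` with coefficients in `Γ`. -/
def etHypMlds (d : ℕ) (Γ : Set ℝ) : Set ℝ :=
  {m : ℝ | 0 ≤ m ∧ ∃ (K : Type) (_ : Field K) (_ : Algebra ℂ K) (X : AffVar K) (B : EffDiv X)
    (x : Pt X) (e : LocEq B x), IsNormal X ∧
    (∃ (L : Type) (_ : Field L) (_ : Algebra ℂ L) (g : HypGerm d L) (b : Bdy g)
      (B' : EffDiv g.X) (e' : LocEq B' g.P), KltTy g ∧ IsRes b e' ∧
      (∀ i, b.β i ≠ 0 → b.β i ∈ Γ) ∧ (∀ j, b.c j ≠ 0 → b.c j ∈ Γ) ∧ CommonAt e e') ∧
    Pool.Agent.W497.Mld.IsMld e m}

open Pool.Agent.TH165.ACC (mldsR acc acc_union) in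
/-- **ACC** for pairs which are étale locally nondegenerate hypersurfaces -/
theorem et_hyp_acc (d : ℕ) {Γ : Set ℝ} (hΓ : Pool.Agent.TH165.ACC.IsDCC Γ) :
    Pool.Agent.TH165.ACC.IsACC (etHypMlds d Γ) := by
  intro u hu hmem
  refine acc_union (N := d + 1) (S := fun d' => {a | ∃ r, a ∈ mldsR d' r (insert 1 Γ)})
    (fun d' _ => acc (dcc_insert hΓ)) u hu fun k => ?_
  obtain ⟨h0, K, _, _, X, B, x, e, -, ⟨L, _, _, g, b, B', e', hk, hres, hβ, hc, hcom⟩, hm⟩ :=
    hmem k
  have hm' : Pool.Agent.W497.Mld.IsMld e' (u k) := by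
    have key : {a | ∃ v, IsOverGerm x v ∧ IsLogDisc e v a} =
        {a | ∃ v, IsOverGerm g.P v ∧ IsLogDisc e' v a} := by
      ext a
      exact log_eq_at hcom a
    unfold Pool.Agent.W497.Mld.IsMld at hm ⊢
    rwa [key] at hm
  exact mld_mem hres hk hβ hc h0 hm'

end Pool.Agent.K9h50.NH
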